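import Pool.Agent.SurfTri.Core

set_option autoImplicit false

namespace Pool.Agent.SurfTri

open Finset Classical

/-- Rotation of triples. -/
def rotE (V : Type) : V × V × V ≃ V × V × V where
  toFun p := (p.2.1, p.2.2, p.1)
  invFun p := (p.2.2, p.1, p.2.1)
  left_inv p := rfl
  right_inv p := rfl

lemma triple_count {n : ℕ} (P : Fin n → Fin n → Fin n → Prop)
    (hrot : ∀ a b c, P a b c → P b c a) (hne : ∀ a b c, P a b c → a ≠ b) :
    (Finset.univ.filter (fun p : Fin n × Fin n × Fin n => P p.1 p.2.1 p.2.2)).card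
      = 3 * (Finset.univ.filter (fun p : Fin n × Fin n × Fin n =>
        P p.1 p.2.1 p.2.2 ∧ p.2.1 < p.1 ∧ p.2.2 < p.1)).card := by
  simp only [Finset.card_filter]
  set F : Fin n × Fin n × Fin n → ℕ := fun p =>
    if P p.1 p.2.1 p.2.2 ∧ p.2.1 < p.1 ∧ p.2.2 < p.1 then 1 else 0 with hF
  have h1 : ∑ p, F (rotE (Fin n) p) = ∑ p, F p := Equiv.sum_comp (rotE (Fin n)) F
  have h2 : ∑ p, F (rotE (Fin n) (rotE (Fin n) p)) = ∑ p, F p := by
    rw [Equiv.sum_comp (rotE (Fin n)) (fun p => F (rotE (Fin n) p)), h1]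
  have h3 : ∀ p : Fin n × Fin n × Fin n, (if P p.1 p.2.1 p.2.2 then 1 else 0)
      = F p + F (rotE (Fin n) p) + F (rotE (Fin n) (rotE (Fin n) p)) := by
    rintro ⟨a, b, c⟩
    simp only [hF, rotE, Equiv.coe_fn_mk]
    by_cases hP : P a b c
    · have hP1 := hrot _ _ _ hP
      have hP2 := hrot _ _ _ hP1
      have n1 := hne _ _ _ hP
      have n2 := hne _ _ _ hP1
      have n3 := hne _ _ _ hP2
      simp only [hP, hP1, hP2, if_true, true_and]
      rcases lt_or_gt_of_ne n1 with h1 | h1 <;> rcases lt_or_gt_of_ne n2 with h2 | h2 <;>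
        rcases lt_or_gt_of_ne n3 with h3 | h3 <;>
        simp [h1, h2, h3, not_lt_of_gt h1, not_lt_of_gt h2, not_lt_of_gt h3]
      · exact absurd (lt_trans h1 (lt_trans h2 h3)) (lt_irrefl _)
      · exact absurd (lt_trans h1 (lt_trans h3 h2)) (lt_irrefl _)
    · have hP1 : ¬ P b c a := fun h => hP (hrot _ _ _ (hrot _ _ _ h))
      have hP2 : ¬ P c a b := fun h => hP (hrot _ _ _ h)
      simp [hP, hP1, hP2]
  rw [Finset.sum_congr rfl (fun p _ => h3 p), Finset.sum_add_distrib, Finset.sum_add_distrib,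
    h1, h2]
  ring

lemma pair_count {n : ℕ} (P : Fin n → Fin n → Prop)
    (hsymm : ∀ a b, P a b → P b a) (hne : ∀ a b, P a b → a ≠ b) :
    (Finset.univ.filter (fun p : Fin n × Fin n => P p.1 p.2)).card
      = 2 * (Finset.univ.filter (fun p : Fin n × Fin n =>
        P p.1 p.2 ∧ p.2 < p.1)).card := by
  simp only [Finset.card_filter]
  set F : Fin n × Fin n → ℕ := fun p =>
    if P p.1 p.2 ∧ p.2 < p.1 then 1 else 0 with hF
  have h1 : ∑ p, F (Equiv.prodComm _ _ p) = ∑ p, F p :=
    Equiv.sum_comp (Equiv.prodComm (Fin n) (Fin n)) F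
  have h3 : ∀ p : Fin n × Fin n, (if P p.1 p.2 then 1 else 0)
      = F p + F (Equiv.prodComm _ _ p) := by
    rintro ⟨a, b⟩
    simp only [hF, Equiv.prodComm_apply, Prod.swap_prod_mk]
    by_cases hP : P a b
    · have hP1 := hsymm _ _ hP
      have n1 := hne _ _ hP
      simp only [hP, hP1, if_true, true_and]
      rcases lt_or_gt_of_ne n1 with h1 | h1 <;>
        simp [h1, not_lt_of_gt h1]
    · have hP1 : ¬ P b a := fun h => hP (hsymm _ _ h)
      simp [hP, hP1]
  rw [Finset.sum_congr rfl (fun p _ => h3 p), Finset.sum_add_distrib, h1]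
  ring

/-- Number of earlier neighbours. -/
noncomputable def dn {n : ℕ} (T : OrientedTriangulation (Fin n)) (a : Fin n) : ℕ :=
  ∑ b, if T.graph.Adj a b ∧ b < a then 1 else 0

/-- Number of faces at `a` with both other corners earlier. -/
noncomputable def fn {n : ℕ} (T : OrientedTriangulation (Fin n)) (a : Fin n) : ℕ :=
  ∑ b, if (∃ c, T.tri a b c ∧ c < a) ∧ b < a then 1 else 0

lemma fn_le_dn {n : ℕ} (T : OrientedTriangulation (Fin n)) (a : Fin n) : fn T a ≤ dn T a := by
  unfold fn dn
  apply Finset.sum_le_sum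
  intro b _
  by_cases h : (∃ c, T.tri a b c ∧ c < a) ∧ b < a
  · obtain ⟨⟨c, hc, hca⟩, hb⟩ := h
    have : T.graph.Adj a b ∧ b < a := ⟨⟨c, hc⟩, hb⟩
    rw [if_pos this, if_pos ⟨⟨c, hc, hca⟩, hb⟩]
  · rw [if_neg h]; exact Nat.zero_le _

lemma fn_lt_dn {n : ℕ} (T : OrientedTriangulation (Fin n)) (a b z : Fin n)
    (hb : T.graph.Adj a b) (hba : b < a) (hz : T.graph.Adj a z) (haz : a < z) :
    fn T a + 1 ≤ dn T a := by
  have hex : ∃ x, (T.graph.Adj a x ∧ x < a) ∧ ¬ (∃ c, T.tri a x c ∧ c < a) := by
    by_contra hcon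
    push Not at hcon
    have hreach : ∀ w, Relation.ReflTransGen (fun x y => T.tri a x y) b w →
        (T.graph.Adj a w ∧ w < a) := by
      intro w hw
      induction hw with
      | refl => exact ⟨hb, hba⟩
      | tail _ hyz ih =>
        obtain ⟨c, hc, hca⟩ := hcon _ ih
        have := T.uniq _ _ _ _ hc hyz
        subst this
        refine ⟨?_, hca⟩
        have h2 := T.rot _ _ _ (T.rot _ _ _ hyz)
        exact T.opp _ _ _ h2
    have := (hreach z (T.link a b z hb hz)).2
    exact absurd (lt_trans this haz) (lt_irrefl _)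
  obtain ⟨x, hx1, hx2⟩ := hex
  unfold fn dn
  have hlt : ∑ b, (if (∃ c, T.tri a b c ∧ c < a) ∧ b < a then 1 else 0)
      < ∑ b, if T.graph.Adj a b ∧ b < a then 1 else 0 := by
    apply Finset.sum_lt_sum
    · intro b _
      by_cases h : (∃ c, T.tri a b c ∧ c < a) ∧ b < a
      · obtain ⟨⟨c, hc, hca⟩, hb⟩ := h
        have : T.graph.Adj a b ∧ b < a := ⟨⟨c, hc⟩, hb⟩
        rw [if_pos this, if_pos ⟨⟨c, hc, hca⟩, hb⟩]
      · rw [if_neg h]; exact Nat.zero_le _
    · refine ⟨x, Finset.mem_univ _, ?_⟩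
      rw [if_pos hx1, if_neg (fun h => hx2 h.1)]
      norm_num
  omega

lemma card_darts {n : ℕ} (T : OrientedTriangulation (Fin n)) :
    Nat.card {p : Fin n × Fin n // T.graph.Adj p.1 p.2} = 2 * ∑ a, dn T a := by
  rw [Nat.card_eq_fintype_card, Fintype.card_subtype,
    pair_count (fun a b => T.graph.Adj a b) (fun a b h => h.symm) (fun a b h => h.ne)]
  congr 1
  rw [Finset.card_filter, Fintype.sum_prod_type]
  rfl

lemma card_flags {n : ℕ} (T : OrientedTriangulation (Fin n)) :
    Nat.card {p : Fin n × Fin n × Fin n // T.tri p.1 p.2.1 p.2.2} = 3 * ∑ a, fn T a := by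
  rw [Nat.card_eq_fintype_card, Fintype.card_subtype,
    triple_count (fun a b c => T.tri a b c) T.rot T.ne]
  congr 1
  rw [Finset.card_filter, Fintype.sum_prod_type]
  apply Finset.sum_congr rfl
  intro a _
  rw [Fintype.sum_prod_type]
  unfold fn
  apply Finset.sum_congr rfl
  intro b _
  by_cases h : (∃ c, T.tri a b c ∧ c < a) ∧ b < a
  · obtain ⟨⟨c, hc, hca⟩, hb⟩ := h
    rw [if_pos ⟨⟨c, hc, hca⟩, hb⟩, Finset.sum_eq_single c]
    · rw [if_pos ⟨hc, hb, hca⟩]
    · intro d _ hd
      rw [if_neg]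
      rintro ⟨h1, _⟩
      exact hd (T.uniq _ _ _ _ h1 hc)
    · simp
  · rw [if_neg h]
    apply Finset.sum_eq_zero
    intro c _
    rw [if_neg]
    rintro ⟨h1, h2, h3⟩
    exact h ⟨⟨c, h1, h3⟩, h2⟩

/-- The graph on `n` vertices: the first eight vertices form a complete graph, the others form
a path, and vertex `0` is adjacent to all other vertices. -/
def fan (n : ℕ) : SimpleGraph (Fin n) where
  Adj a b := a ≠ b ∧ ((a.val < 8 ∧ b.val < 8) ∨ a.val = 0 ∨ b.val = 0 ∨
    (8 ≤ a.val ∧ b.val = a.val + 1) ∨ (8 ≤ b.val ∧ a.val = b.val + 1))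
  symm := ⟨fun a b h => ⟨h.1.symm, by
    rcases h.2 with h | h | h | h | h
    · exact Or.inl ⟨h.2, h.1⟩
    · exact Or.inr (Or.inr (Or.inl h))
    · exact Or.inr (Or.inl h)
    · exact Or.inr (Or.inr (Or.inr (Or.inr h)))
    · exact Or.inr (Or.inr (Or.inr (Or.inl h)))⟩⟩
  loopless := ⟨fun a h => h.1 rfl⟩

theorem fan_not_extends {n : ℕ} (hn : 9 ≤ n) : ¬ ExtendsToTriangulation 2 (fan n) := by
  rintro ⟨T, hgen, hle⟩
  have hadj : ∀ a b : Fin n, a ≠ b → ((a.val < 8 ∧ b.val < 8) ∨ a.val = 0 ∨ b.val = 0 ∨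
    (8 ≤ a.val ∧ b.val = a.val + 1) ∨ (8 ≤ b.val ∧ a.val = b.val + 1)) → T.graph.Adj a b :=
    fun a b h1 h2 => hle ⟨h1, h2⟩
  -- Euler
  have hE : (n : ℤ) + ∑ a, (fn T a : ℤ) + 2 = ∑ a, (dn T a : ℤ) := by
    unfold OrientedTriangulation.HasGenus OrientedTriangulation.eulerChar at hgen
    rw [card_darts, card_flags, Fintype.card_fin] at hgen
    push_cast at hgen
    have : ((n : ℤ) : ℚ) + ((∑ a, (fn T a : ℤ) : ℤ) : ℚ) + 2 = ((∑ a, (dn T a : ℤ) : ℤ) : ℚ) := by
      push_cast
      linarith
    exact_mod_cast this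
  -- small vertices
  have hsmall : ∑ a : Fin n, (if a.val < 8 then dn T a else 0) = 28 := by
    have h1 : ∀ a : Fin n, (if a.val < 8 then dn T a else 0) = if a.val < 8 then a.val else 0 := by
      intro a
      split_ifs with ha
      · unfold dn
        have h2 : ∀ b : Fin n, (if T.graph.Adj a b ∧ b < a then 1 else 0)
            = if b.val < a.val then 1 else 0 := by
          intro b
          by_cases hba : b.val < a.val
          · have : T.graph.Adj a b ∧ b < a :=
              ⟨hadj a b (fun h => by rw [h] at hba; omega) (Or.inl ⟨ha, by omega⟩), hba⟩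
            rw [if_pos this, if_pos hba]
          · rw [if_neg (fun h => hba h.2), if_neg hba]
        rw [Finset.sum_congr rfl (fun b _ => h2 b),
          Fin.sum_univ_eq_sum_range (fun i => if i < a.val then 1 else 0) n,
          ← Finset.sum_filter, Finset.sum_const, smul_eq_mul, mul_one]
        have : Finset.filter (fun i => i < a.val) (Finset.range n) = Finset.range a.val := by
          ext i
          simp only [Finset.mem_filter, Finset.mem_range]
          have := a.isLt
          omega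
        rw [this, Finset.card_range]
      · rfl
    rw [Finset.sum_congr rfl (fun a _ => h1 a),
      Fin.sum_univ_eq_sum_range (fun i => if i < 8 then i else 0) n, ← Finset.sum_filter]
    have : Finset.filter (fun i => i < 8) (Finset.range n) = Finset.range 8 := by
      ext i
      simp only [Finset.mem_filter, Finset.mem_range]
      omega
    rw [this]
    rfl
  -- large vertices
  have hlarge : ∑ a : Fin n, (if a.val < 8 then 0 else fn T a) + (n - 9)
      ≤ ∑ a : Fin n, (if a.val < 8 then 0 else dn T a) := by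
    have h1 : ∑ a : Fin n, (if 8 ≤ a.val ∧ a.val + 1 < n then 1 else 0) = n - 9 := by
      rw [Fin.sum_univ_eq_sum_range (fun i => if 8 ≤ i ∧ i + 1 < n then 1 else 0) n,
        ← Finset.sum_filter, Finset.sum_const, smul_eq_mul, mul_one]
      have : Finset.filter (fun i => 8 ≤ i ∧ i + 1 < n) (Finset.range n)
          = Finset.Ico 8 (n - 1) := by
        ext i
        simp only [Finset.mem_filter, Finset.mem_range, Finset.mem_Ico]
        omega
      rw [this, Nat.card_Ico]
      omega
    rw [← h1, ← Finset.sum_add_distrib]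
    apply Finset.sum_le_sum
    intro a _
    by_cases ha : a.val < 8
    · rw [if_pos ha, if_pos ha, if_neg (by omega)]
    · rw [if_neg ha, if_neg ha]
      by_cases ha2 : a.val + 1 < n
      · rw [if_pos ⟨by omega, ha2⟩]
        apply fn_lt_dn T a ⟨0, by omega⟩ ⟨a.val + 1, ha2⟩
        · apply hadj
          · intro h
            have := congrArg Fin.val h
            simp only at this
            omega
          · exact Or.inr (Or.inr (Or.inl rfl))
        · show (0 : ℕ) < a.val
          omega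
        · apply hadj
          · intro h
            have := congrArg Fin.val h
            simp only at this
            omega
          · exact Or.inr (Or.inr (Or.inr (Or.inl ⟨by omega, rfl⟩)))
        · show a.val < a.val + 1
          omega
      · rw [if_neg (by omega), add_zero]
        exact fn_le_dn T a
  -- so many faces inside
  have hsplit : ∀ f : Fin n → ℕ, ∑ a, f a = ∑ a : Fin n, (if a.val < 8 then f a else 0)
      + ∑ a : Fin n, (if a.val < 8 then 0 else f a) := by
    intro f
    rw [← Finset.sum_add_distrib]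
    apply Finset.sum_congr rfl
    intro a _
    split_ifs <;> simp
  have hFK : 17 ≤ ∑ a : Fin n, (if a.val < 8 then fn T a else 0) := by
    have e1 := hsplit (fn T)
    have e2 := hsplit (dn T)
    have hE' : n + ∑ a, fn T a + 2 = ∑ a, dn T a := by exact_mod_cast hE
    omega
  -- flags inside K
  have hSK : (Finset.univ.filter (fun p : Fin n × Fin n × Fin n =>
      T.tri p.1 p.2.1 p.2.2 ∧ p.1.val < 8 ∧ p.2.1.val < 8 ∧ p.2.2.val < 8)).card
      = 3 * ∑ a : Fin n, (if a.val < 8 then fn T a else 0) := by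
    have h0 := triple_count (fun a b c => T.tri a b c ∧ a.val < 8 ∧ b.val < 8 ∧ c.val < 8)
      (fun a b c h => ⟨T.rot _ _ _ h.1, h.2.2.1, h.2.2.2, h.2.1⟩) (fun a b c h => T.ne _ _ _ h.1)
    refine Eq.trans ?_ (h0.trans ?_)
    · congr!
    congr 1
    rw [Finset.card_filter, Fintype.sum_prod_type]
    apply Finset.sum_congr rfl
    intro a _
    rw [Fintype.sum_prod_type]
    by_cases ha : a.val < 8
    · rw [if_pos ha]
      unfold fn
      apply Finset.sum_congr rfl
      intro b _
      by_cases h : (∃ c, T.tri a b c ∧ c < a) ∧ b < a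
      · obtain ⟨⟨c, hc, hca⟩, hb⟩ := h
        have hb' : b.val < a.val := hb
        have hca' : c.val < a.val := hca
        rw [if_pos ⟨⟨c, hc, hca⟩, hb⟩, Finset.sum_eq_single c]
        · have hb8 : b.val < 8 := by omega
          have hc8 : c.val < 8 := by omega
          rw [if_pos ⟨⟨hc, ha, hb8, hc8⟩, hb, hca⟩]
        · intro d _ hd
          rw [if_neg]
          rintro ⟨⟨h1, _⟩, _⟩
          exact hd (T.uniq _ _ _ _ h1 hc)
        · simp
      · rw [if_neg h]
        apply Finset.sum_eq_zero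
        intro c _
        rw [if_neg]
        rintro ⟨⟨h1, _⟩, h2, h3⟩
        exact h ⟨⟨c, h1, h3⟩, h2⟩
    · rw [if_neg ha]
      apply Finset.sum_eq_zero
      intro b _
      apply Finset.sum_eq_zero
      intro c _
      rw [if_neg]
      rintro ⟨⟨_, h1, _⟩, _⟩
      exact ha h1
  -- the induced structure on eight vertices
  set κ : Fin 8 → Fin n := fun i => ⟨i.val, by omega⟩ with hκ
  have hκinj : Function.Injective κ := fun i j h => Fin.ext (by simpa [hκ] using congrArg Fin.val h)
  set tri8 : Fin 8 → Fin 8 → Fin 8 → Prop := fun a b c => T.tri (κ a) (κ b) (κ c) with htri8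
  have hEight : Eight tri8 := by
    refine ⟨fun a b c h => T.rot _ _ _ h, fun a b c h hab => T.ne _ _ _ h (by rw [hab]),
      fun a b c d h1 h2 => hκinj (T.uniq _ _ _ _ h1 h2), ?_⟩
    intro a C ⟨b, hb⟩ haC hclosed
    have hsub : Finset.univ.erase a ⊆ C := by
      intro z hz
      have hza : z ≠ a := Finset.ne_of_mem_erase hz
      have hreach : ∀ w, Relation.ReflTransGen (fun x y => T.tri (κ a) x y) (κ b) w →
          ∃ x ∈ C, κ x = w := by
        intro w hw
        induction hw with
        | refl => exact ⟨b, hb, rfl⟩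
        | tail _ hyz ih =>
          obtain ⟨x, hxC, hx⟩ := ih
          obtain ⟨y, hyC, hy⟩ := hclosed x hxC
          refine ⟨y, hyC, ?_⟩
          rw [← hx] at hyz
          exact T.uniq _ _ _ _ hy hyz
      have hab : T.graph.Adj (κ a) (κ b) := by
        apply hadj
        · intro h; rw [hκinj h] at haC; exact haC hb
        · exact Or.inl ⟨a.isLt, b.isLt⟩
      have haz : T.graph.Adj (κ a) (κ z) := by
        apply hadj
        · intro h; exact hza (hκinj h).symm
        · exact Or.inl ⟨a.isLt, z.isLt⟩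
      obtain ⟨x, hxC, hx⟩ := hreach (κ z) (T.link _ _ _ hab haz)
      rw [← hκinj hx]; exact hxC
    have := Finset.card_le_card hsub
    rw [Finset.card_erase_of_mem (Finset.mem_univ a), Finset.card_univ, Fintype.card_fin] at this
    omega
  -- covered darts
  have hcov : 51 ≤ (Finset.univ.filter
      (fun p : Fin 8 × Fin 8 => ∃ c, tri8 p.1 p.2 c)).card := by
    have h1 : (Finset.univ.filter (fun p : Fin n × Fin n × Fin n =>
      T.tri p.1 p.2.1 p.2.2 ∧ p.1.val < 8 ∧ p.2.1.val < 8 ∧ p.2.2.val < 8)).card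
      ≤ (Finset.univ.filter (fun p : Fin 8 × Fin 8 => ∃ c, tri8 p.1 p.2 c)).card := by
      apply Finset.card_le_card_of_injOn
        (fun p => ((⟨min p.1.val 7, by omega⟩ : Fin 8), (⟨min p.2.1.val 7, by omega⟩ : Fin 8)))
      · rintro ⟨a, b, c⟩ hp
        have hp' := (Finset.mem_filter.mp (Finset.mem_coe.mp hp)).2
        simp only at hp'
        obtain ⟨h1, h2, h3, h4⟩ := hp'
        rw [Finset.mem_coe, Finset.mem_filter]
        refine ⟨Finset.mem_univ _, ⟨c.val, h4⟩, ?_⟩
        show T.tri _ _ _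
        have ea : (κ ⟨min a.val 7, by omega⟩) = a := Fin.ext (by simp only [hκ]; omega)
        have eb : (κ ⟨min b.val 7, by omega⟩) = b := Fin.ext (by simp only [hκ]; omega)
        have ec : (κ ⟨c.val, h4⟩) = c := Fin.ext rfl
        rw [ea, eb, ec]
        exact h1
      · rintro ⟨a, b, c⟩ hp ⟨a', b', c'⟩ hp' heq
        have h1 := (Finset.mem_filter.mp (Finset.mem_coe.mp hp)).2
        have h2 := (Finset.mem_filter.mp (Finset.mem_coe.mp hp')).2
        simp only [Prod.mk.injEq, Fin.mk.injEq] at heq h1 h2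
        have ea : a = a' := Fin.ext (by omega)
        have eb : b = b' := Fin.ext (by omega)
        subst ea; subst eb
        have := T.uniq _ _ _ _ h1.1 h2.1
        subst this
        rfl
    rw [hSK] at h1
    omega
  have hunc : (unc8 tri8).card ≤ 5 := by
    have hdisj : Disjoint (unc8 tri8)
        (Finset.univ.filter (fun p : Fin 8 × Fin 8 => ∃ c, tri8 p.1 p.2 c)) := by
      rw [Finset.disjoint_left]
      intro p hp hp'
      unfold unc8 at hp
      exact (Finset.mem_filter.mp hp).2.2 (Finset.mem_filter.mp hp').2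
    have hsub : unc8 tri8 ∪ (Finset.univ.filter (fun p : Fin 8 × Fin 8 => ∃ c, tri8 p.1 p.2 c))
        ⊆ Finset.univ.filter (fun p : Fin 8 × Fin 8 => p.1 ≠ p.2) := by
      intro p hp
      rw [Finset.mem_filter]
      refine ⟨Finset.mem_univ _, ?_⟩
      rcases Finset.mem_union.mp hp with h | h
      · unfold unc8 at h
        exact (Finset.mem_filter.mp h).2.1
      · obtain ⟨c, hc⟩ := (Finset.mem_filter.mp h).2
        exact hEight.ne _ _ _ hc
    have hc := Finset.card_le_card hsub
    rw [Finset.card_union_of_disjoint hdisj] at hc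
    have h56 : (Finset.univ.filter (fun p : Fin 8 × Fin 8 => p.1 ≠ p.2)).card = 56 := by
      decide
    omega
  exact no_eight tri8 hEight hunc

end Pool.Agent.SurfTri
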