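import Pool.Agent.SurfTri.Stack

set_option autoImplicit false

namespace Pool.Agent.SurfTri

/-- The faces of a triangulation of the double torus with ten vertices whose 1-skeleton contains
a complete graph on the vertices `0, ..., 7`. Each face is coded as `100 a + 10 b + c`. -/
def baseList : List ℕ :=
  [18, 26, 35, 47, 59, 61, 72, 83, 94, 128, 134, 142, 153, 167, 175, 238, 249, 256, 273, 295,
    364, 376, 457, 465]

/-- Boolean membership. -/
def baseB (a b c : ℕ) : Bool :=
  baseList.any (fun k => Nat.beq k (100 * a + 10 * b + c) || Nat.beq k (100 * b + 10 * c + a) ||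
    Nat.beq k (100 * c + 10 * a + b))

/-- The third vertex of the face at a directed edge (or `10` if there is none). -/
def baseNext (a b : ℕ) : ℕ :=
  ((List.range 10).find? (fun c => baseB a b c)).getD 10

/-- Oriented faces. -/
def baseTri (a b c : Fin 10) : Prop := baseB a.val b.val c.val = true

instance (a b c : Fin 10) : Decidable (baseTri a b c) := by
  unfold baseTri; infer_instance

lemma base_rot : ∀ a b c : Fin 10, baseTri a b c → baseTri b c a := by decide +kernel

lemma base_ne : ∀ a b c : Fin 10, baseTri a b c → a ≠ b := by decide +kernel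

lemma base_uniq' : ∀ a b c : Fin 10, baseTri a b c → baseNext a.val b.val = c.val := by
  decide +kernel

lemma base_opp : ∀ a b c : Fin 10, baseTri a b c → ∃ d, baseTri b a d := by decide +kernel

lemma base_simple : ∀ a b c : Fin 10, baseTri a b c → ¬ baseTri b a c := by decide +kernel

lemma base_link' : ∀ a b c : Fin 10, (∃ x, baseTri a b x) → (∃ x, baseTri a c x) →
    ∃ k < 10, (baseNext a.val)^[k] b.val = c.val := by decide +kernel

lemma base_next : ∀ a b : Fin 10, (∃ x, baseTri a b x) →
    ∃ h : baseNext a.val b.val < 10, baseTri a b ⟨baseNext a.val b.val, h⟩ := by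
  rintro a b ⟨c, h⟩
  have := base_uniq' a b c h
  refine ⟨by rw [this]; exact c.isLt, ?_⟩
  convert h

lemma base_adj_next : ∀ a b c : Fin 10, baseTri a b c → ∃ x, baseTri a c x := by
  intro a b c h
  exact base_opp _ _ _ (base_rot _ _ _ (base_rot _ _ _ h))

lemma base_link (a b c : Fin 10) (hb : ∃ x, baseTri a b x) (hc : ∃ x, baseTri a c x) :
    Relation.ReflTransGen (fun x y => baseTri a x y) b c := by
  obtain ⟨k, _, hk⟩ := base_link' a b c hb hc
  have key : ∀ k : ℕ, ∀ b : Fin 10, (∃ x, baseTri a b x) → ∀ c : Fin 10,
      (baseNext a.val)^[k] b.val = c.val →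
      Relation.ReflTransGen (fun x y => baseTri a x y) b c := by
    intro k
    induction k with
    | zero =>
      intro b _ c h
      have : b = c := Fin.ext h
      rw [this]
    | succ k ih =>
      intro b hb c h
      obtain ⟨h1, h2⟩ := base_next a b hb
      rw [Function.iterate_succ_apply] at h
      have := ih ⟨_, h1⟩ (base_adj_next _ _ _ h2) c h
      exact (Relation.ReflTransGen.single (r := fun x y => baseTri a x y) h2).trans this
  exact key k b hb c hk

lemma base_conn' : ∀ a b : Fin 10, ∃ c : Fin 10, (∃ x, baseTri a c x) ∧ (∃ x, baseTri c b x) := by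
  decide +kernel

/-- The base triangulation. -/
def base : OrientedTriangulation (Fin 10) where
  tri := baseTri
  rot := base_rot
  ne := base_ne
  uniq a b c d h h' := Fin.ext (by rw [← base_uniq' a b c h, ← base_uniq' a b d h'])
  opp := base_opp
  simple := base_simple
  link := base_link
  conn a b := by
    obtain ⟨c, h1, h2⟩ := base_conn' a b
    exact (Relation.ReflTransGen.single (r := fun x y => ∃ z, baseTri x y z) h1).tail h2
  nonempty := ⟨0⟩

lemma base_count : (Finset.univ.filter
    (fun p : Fin 10 × Fin 10 => ∃ c, baseTri p.1 p.2 c)).card = 72 := by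
  decide +kernel

open Classical in
lemma base_genus : base.HasGenus 2 := by
  unfold OrientedTriangulation.HasGenus OrientedTriangulation.eulerChar
  rw [card_flags_eq]
  have h : Nat.card {p : Fin 10 × Fin 10 // base.graph.Adj p.1 p.2} = 72 := by
    rw [Nat.card_eq_fintype_card, Fintype.card_subtype, ← base_count]
    congr!
  rw [h, Fintype.card_fin]
  norm_num

lemma base_K8 : ∀ a b : Fin 10, a.val < 8 → b.val < 8 → a ≠ b → ∃ x, baseTri a b x := by
  decide +kernel

lemma base_801 : baseTri 8 0 1 := by decide +kernel

end Pool.Agent.SurfTri
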