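import Pool.Agent.SurfTri.Search

set_option autoImplicit false

namespace Pool.Agent.SurfTri

lemma getv_lt (s d : ℕ) : getv s d < 16 := Nat.mod_lt _ (by norm_num)

lemma getv_setv (s d v d' : ℕ) (h0 : getv s d = 0) (hv : v < 16) :
    getv (setv s d v) d' = if d' = d then v else getv s d' := by
  unfold getv setv at *
  have hpos : ∀ k : ℕ, 0 < 16 ^ k := fun k => by positivity
  split_ifs with h
  · subst h
    rw [Nat.add_mul_div_right _ _ (hpos _), Nat.add_mod, h0, zero_add, Nat.mod_mod,
      Nat.mod_eq_of_lt hv]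
  · rcases lt_or_gt_of_ne h with hlt | hgt
    · obtain ⟨k, rfl⟩ : ∃ k, d = d' + 1 + k := ⟨d - d' - 1, by omega⟩
      have : v * 16 ^ (d' + 1 + k) = (16 * (v * 16 ^ k)) * 16 ^ d' := by ring
      rw [this, Nat.add_mul_div_right _ _ (hpos _), Nat.add_mul_mod_self_left]
    · obtain ⟨k, rfl⟩ : ∃ k, d' = d + 1 + k := ⟨d' - d - 1, by omega⟩
      have e : (s + v * 16 ^ d) / 16 ^ (d + 1 + k) = s / 16 ^ (d + 1 + k) := by
        rw [pow_add (16 : ℕ) (d + 1) k, ← Nat.div_div_eq_div_mul, ← Nat.div_div_eq_div_mul]
        congr 1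
        rw [pow_succ, ← Nat.div_div_eq_div_mul, ← Nat.div_div_eq_div_mul,
          Nat.add_mul_div_right _ _ (hpos _)]
        omega
      rw [e]

lemma ne_of_beq_false {m n : ℕ} (h : Nat.beq m n = false) : m ≠ n := by
  rintro rfl
  simp at h

lemma beq_false_of_ne {m n : ℕ} (h : m ≠ n) : Nat.beq m n = false := by
  cases hb : Nat.beq m n
  · rfl
  · exact absurd (Nat.eq_of_beq_eq_true hb) h

/-- The data extracted from a hypothetical embedding. -/
structure Good (t : ℕ → ℕ → ℕ) : Prop where
  w8 : ∀ a, t a 8 = 8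
  le : ∀ a b, a < 8 → b < 8 → a ≠ b → t a b ≤ 8
  ne1 : ∀ a b, a < 8 → b < 8 → a ≠ b → t a b ≠ a
  ne2 : ∀ a b, a < 8 → b < 8 → a ≠ b → t a b ≠ b
  rot : ∀ a b, a < 8 → b < 8 → a ≠ b → t a b < 8 → t b (t a b) = a
  link : ∀ a b, a < 8 → b < 8 → a ≠ b → ∀ j ≤ 5, (t a)^[j + 1] b ≠ b

structure Inv (t : ℕ → ℕ → ℕ) (s w : ℕ) : Prop where
  cons : ∀ a b, a < 8 → b < 8 → getv s (8 * a + b) ≠ 0 → a ≠ b ∧ t a b = getv s (8 * a + b) - 1
  clos : ∀ a b z, a < 8 → b < 8 → z < 8 → getv s (8 * a + b) = z + 1 →
    getv s (8 * b + z) = a + 1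
  wcount : ∃ ws : Finset ℕ, ws.card = w ∧ ∀ d ∈ ws, d < 64 ∧ getv s d = 9

lemma follow_sound {t : ℕ → ℕ → ℕ} (ht : Good t) {s w : ℕ} (hs : Inv t s w) (a b : ℕ)
    (ha : a < 8) : ∀ k x, x < 8 → x ≠ a → follow s a b k x = true → ∃ j ≤ k, (t a)^[j] x = b := by
  intro k
  induction k with
  | zero =>
    intro x _ _ h
    exact ⟨0, le_refl _, by simpa [follow] using h⟩
  | succ k ih =>
    intro x hx hxa h
    unfold follow at h
    rw [Bool.or_eq_true] at h
    rcases h with h | h
    · exact ⟨0, Nat.zero_le _, by simpa using h⟩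
    · simp only [Bool.and_eq_true, Bool.not_eq_true'] at h
      obtain ⟨⟨h0, h9⟩, h⟩ := h
      have h0' : getv s (8 * a + x) ≠ 0 := ne_of_beq_false h0
      have h9' : getv s (8 * a + x) ≠ 9 := ne_of_beq_false h9
      obtain ⟨_, hc⟩ := hs.cons a x ha hx h0'
      have hle := ht.le a x ha hx (Ne.symm hxa)
      have hne := ht.ne1 a x ha hx (Ne.symm hxa)
      have h8 : t a x < 8 := by omega
      rw [← hc] at h
      obtain ⟨j, hj, hj2⟩ := ih (t a x) h8 hne h
      exact ⟨j + 1, by omega, by rw [Function.iterate_succ_apply]; exact hj2⟩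

lemma rot2 {t : ℕ → ℕ → ℕ} (ht : Good t) (a b : ℕ) (ha : a < 8) (hb : b < 8) (hab : a ≠ b)
    (h : t a b < 8) : t (t a b) a = b := by
  have h1 := ht.rot a b ha hb hab h
  have hne := ht.ne2 a b ha hb hab
  have := ht.rot b (t a b) hb h (Ne.symm hne) (by rw [h1]; exact ha)
  rw [h1] at this
  exact this

/-- A true triangle whose first dart is unset is feasible. -/
lemma feas_of_true {t : ℕ → ℕ → ℕ} (ht : Good t) {s w : ℕ} (hs : Inv t s w) (a b : ℕ)
    (ha : a < 8) (hb : b < 8) (hab : a ≠ b) (h : t a b < 8) (h0 : getv s (8 * a + b) = 0) :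
    feas s a b (t a b) = true := by
  set c := t a b with hc
  have h1 : t b c = a := ht.rot a b ha hb hab h
  have h2 : t c a = b := rot2 ht a b ha hb hab h
  have hca : c ≠ a := ht.ne1 a b ha hb hab
  have hcb : c ≠ b := ht.ne2 a b ha hb hab
  have g1 : getv s (8 * b + c) = 0 := by
    by_contra hne
    obtain ⟨_, e⟩ := hs.cons b c hb h hne
    have e2 : getv s (8 * b + c) = a + 1 := by omega
    have e3 := hs.clos b c a hb h ha e2
    have e4 := hs.clos c a b h ha hb e3
    omega
  have g2 : getv s (8 * c + a) = 0 := by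
    by_contra hne
    obtain ⟨_, e⟩ := hs.cons c a h ha hne
    have e2 : getv s (8 * c + a) = b + 1 := by omega
    have e3 := hs.clos c a b h ha hb e2
    omega
  have f1 : follow s a b 5 c = false := by
    by_contra hne
    obtain ⟨j, hj, hj2⟩ := follow_sound ht hs a b ha 5 c h hca (by simpa using hne)
    apply ht.link a b ha hb hab j hj
    rw [Function.iterate_succ_apply, ← hc]; exact hj2
  have f2 : follow s b c 5 a = false := by
    by_contra hne
    obtain ⟨j, hj, hj2⟩ := follow_sound ht hs b c hb 5 a ha hab (by simpa using hne)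
    apply ht.link b c hb h (Ne.symm hcb) j hj
    rw [Function.iterate_succ_apply, h1]; exact hj2
  have f3 : follow s c a 5 b = false := by
    by_contra hne
    obtain ⟨j, hj, hj2⟩ := follow_sound ht hs c a h 5 b hb (Ne.symm hcb) (by simpa using hne)
    apply ht.link c a h ha hca j hj
    rw [Function.iterate_succ_apply, h2]; exact hj2
  unfold feas
  rw [beq_false_of_ne hca, beq_false_of_ne hcb, g1, g2, f1, f2, f3]
  rfl

lemma code_eq {a b x y : ℕ} (hb : b < 8) (hy : y < 8) :
    8 * a + b = 8 * x + y ↔ a = x ∧ b = y := by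
  constructor
  · intro h; constructor <;> omega
  · rintro ⟨rfl, rfl⟩; rfl

lemma getv_addTri {s a b c : ℕ} (ha : a < 8) (hb : b < 8) (hc : c < 8) (hab : a ≠ b)
    (hbc : b ≠ c) (hca : c ≠ a) (g0 : getv s (8 * a + b) = 0) (g1 : getv s (8 * b + c) = 0)
    (g2 : getv s (8 * c + a) = 0) (d : ℕ) :
    getv (addTri s a b c) d = if d = 8 * c + a then b + 1 else if d = 8 * b + c then a + 1
      else if d = 8 * a + b then c + 1 else getv s d := by
  unfold addTri
  have h1 : ∀ d, getv (setv s (8 * a + b) (c + 1)) d
      = if d = 8 * a + b then c + 1 else getv s d :=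
    fun d => getv_setv s _ _ d g0 (by omega)
  have h2 : ∀ d, getv (setv (setv s (8 * a + b) (c + 1)) (8 * b + c) (a + 1)) d
      = if d = 8 * b + c then a + 1 else if d = 8 * a + b then c + 1 else getv s d := by
    intro d
    rw [getv_setv _ _ _ d ?_ (by omega), h1 d]
    rw [h1, if_neg, g1]
    omega
  rw [getv_setv _ _ _ d ?_ (by omega), h2 d]
  rw [h2, if_neg, if_neg, g2]
  · omega
  · omega

lemma inv_addTri {t : ℕ → ℕ → ℕ} (ht : Good t) {s w : ℕ} (hs : Inv t s w) (a b : ℕ)
    (ha : a < 8) (hb : b < 8) (hab : a ≠ b) (h : t a b < 8) (h0 : getv s (8 * a + b) = 0) :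
    Inv t (addTri s a b (t a b)) w := by
  set c := t a b with hc
  have h1 : t b c = a := ht.rot a b ha hb hab h
  have h2 : t c a = b := rot2 ht a b ha hb hab h
  have hca : c ≠ a := ht.ne1 a b ha hb hab
  have hcb : c ≠ b := ht.ne2 a b ha hb hab
  have g1 : getv s (8 * b + c) = 0 := by
    by_contra hne
    obtain ⟨_, e⟩ := hs.cons b c hb h hne
    have e2 : getv s (8 * b + c) = a + 1 := by omega
    have e3 := hs.clos b c a hb h ha e2
    have e4 := hs.clos c a b h ha hb e3
    omega
  have g2 : getv s (8 * c + a) = 0 := by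
    by_contra hne
    obtain ⟨_, e⟩ := hs.cons c a h ha hne
    have e2 : getv s (8 * c + a) = b + 1 := by omega
    have e3 := hs.clos c a b h ha hb e2
    omega
  have G := getv_addTri ha hb h hab (Ne.symm hcb) hca h0 g1 g2
  refine ⟨?_, ?_, ?_⟩
  · intro x y hx hy hne
    rw [G] at hne ⊢
    split_ifs with e1 e2 e3
    · obtain ⟨rfl, rfl⟩ := (code_eq hy ha).mp e1
      exact ⟨hca, by omega⟩
    · obtain ⟨rfl, rfl⟩ := (code_eq hy h).mp e2
      exact ⟨Ne.symm hcb, by omega⟩
    · obtain ⟨rfl, rfl⟩ := (code_eq hy hb).mp e3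
      exact ⟨hab, by omega⟩
    · rw [if_neg e1, if_neg e2, if_neg e3] at hne
      exact hs.cons x y hx hy hne
  · intro x y z hx hy hz hxy
    rw [G] at hxy ⊢
    by_cases e1 : 8 * x + y = 8 * c + a
    · rw [if_pos e1] at hxy
      obtain ⟨rfl, rfl⟩ := (code_eq hy ha).mp e1
      have hzb : z = b := by omega
      subst hzb
      rw [if_neg (by omega), if_neg (by omega), if_pos rfl]
    · rw [if_neg e1] at hxy
      by_cases e2 : 8 * x + y = 8 * b + c
      · rw [if_pos e2] at hxy
        obtain ⟨rfl, rfl⟩ := (code_eq hy h).mp e2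
        have hza : z = a := by omega
        subst hza
        rw [if_pos rfl]
      · rw [if_neg e2] at hxy
        by_cases e3 : 8 * x + y = 8 * a + b
        · rw [if_pos e3] at hxy
          obtain ⟨rfl, rfl⟩ := (code_eq hy hb).mp e3
          have hzc : z = c := by omega
          rw [hzc]
          rw [if_neg (by omega), if_pos rfl]
        · rw [if_neg e3] at hxy
          have k1 := hs.clos x y z hx hy hz hxy
          rw [if_neg, if_neg, if_neg]
          · exact k1
          · intro hh; rw [hh] at k1; omega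
          · intro hh; rw [hh] at k1; omega
          · intro hh; rw [hh] at k1; omega
  · obtain ⟨ws, hw1, hw2⟩ := hs.wcount
    refine ⟨ws, hw1, ?_⟩
    intro d hd
    obtain ⟨hd1, hd2⟩ := hw2 d hd
    refine ⟨hd1, ?_⟩
    rw [G, if_neg, if_neg, if_neg]
    · exact hd2
    · intro hh; rw [hh] at hd2; omega
    · intro hh; rw [hh] at hd2; omega
    · intro hh; rw [hh] at hd2; omega

lemma inv_setW {t : ℕ → ℕ → ℕ} {s w : ℕ} (hs : Inv t s w) (a b : ℕ)
    (ha : a < 8) (hb : b < 8) (hab : a ≠ b) (h : t a b = 8) (h0 : getv s (8 * a + b) = 0) :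
    Inv t (setv s (8 * a + b) 9) (w + 1) := by
  have G : ∀ d, getv (setv s (8 * a + b) 9) d = if d = 8 * a + b then 9 else getv s d :=
    fun d => getv_setv s _ _ d h0 (by norm_num)
  refine ⟨?_, ?_, ?_⟩
  · intro x y hx hy hne
    rw [G] at hne ⊢
    split_ifs with e1
    · obtain ⟨rfl, rfl⟩ := (code_eq hy hb).mp e1
      exact ⟨hab, by omega⟩
    · rw [if_neg e1] at hne
      exact hs.cons x y hx hy hne
  · intro x y z hx hy hz hxy
    rw [G] at hxy ⊢
    by_cases e1 : 8 * x + y = 8 * a + b
    · rw [if_pos e1] at hxy; omega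
    · rw [if_neg e1] at hxy
      have k1 := hs.clos x y z hx hy hz hxy
      rw [if_neg]
      · exact k1
      · intro hh; rw [hh] at k1; omega
  · obtain ⟨ws, hw1, hw2⟩ := hs.wcount
    refine ⟨insert (8 * a + b) ws, ?_, ?_⟩
    · rw [Finset.card_insert_of_notMem, hw1]
      intro hmem
      have := (hw2 _ hmem).2
      omega
    · intro d hd
      rw [G]
      rcases Finset.mem_insert.mp hd with rfl | hd
      · exact ⟨by omega, by rw [if_pos rfl]⟩
      · obtain ⟨hd1, hd2⟩ := hw2 d hd
        refine ⟨hd1, ?_⟩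
        split_ifs
        · rfl
        · exact hd2

/-- Number of uncovered darts. -/
def unc (t : ℕ → ℕ → ℕ) : Finset ℕ :=
  (Finset.range 64).filter (fun d => d / 8 ≠ d % 8 ∧ t (d / 8) (d % 8) = 8)

lemma w_le {t : ℕ → ℕ → ℕ} {s w : ℕ} (hs : Inv t s w) (hu : (unc t).card ≤ 5) : w ≤ 5 := by
  obtain ⟨ws, hw1, hw2⟩ := hs.wcount
  rw [← hw1]
  refine le_trans (Finset.card_le_card ?_) hu
  intro d hd
  obtain ⟨hd1, hd2⟩ := hw2 d hd
  have e : 8 * (d / 8) + d % 8 = d := Nat.div_add_mod d 8
  have hc := hs.cons (d / 8) (d % 8) (by omega) (by omega) (by rw [e, hd2]; norm_num)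
  rw [e, hd2] at hc
  unfold unc
  rw [Finset.mem_filter, Finset.mem_range]
  exact ⟨hd1, hc.1, hc.2⟩

theorem search_sound {t : ℕ → ℕ → ℕ} (ht : Good t) (hu : (unc t).card ≤ 5) :
    ∀ fuel s w l, Inv t s w → (search fuel s w l).isSome = true → False := by
  intro fuel
  induction fuel with
  | zero => intro s w l _ h; simp [search] at h
  | succ fuel ih =>
    intro s w l hs h
    cases l with
    | nil => simp [search] at h
    | cons d l =>
      unfold search at h
      simp only at h
      cases hguard : (Nat.beq (getv s d) 0 && !(Nat.beq (d / 8) (d % 8)) && Nat.blt (d / 8) 8)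
      · rw [hguard] at h; simp at h
      · rw [hguard] at h
        simp only [cond_true] at h
        simp only [Bool.and_eq_true, Bool.not_eq_true'] at hguard
        obtain ⟨⟨hg0, hg1⟩, hg2⟩ := hguard
        have hg0' : getv s d = 0 := Nat.eq_of_beq_eq_true hg0
        have hab : d / 8 ≠ d % 8 := ne_of_beq_false hg1
        have ha : d / 8 < 8 := by simpa [Nat.blt_eq] using hg2
        have hb : d % 8 < 8 := Nat.mod_lt _ (by norm_num)
        have e : 8 * (d / 8) + d % 8 = d := Nat.div_add_mod d 8
        set a := d / 8 with hadef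
        set b := d % 8 with hbdef
        -- every step must succeed
        have key : ∀ (acc : Option (List ℕ)) (c : ℕ),
            (acc.bind (fun l' => bif feas s a b c then search fuel (addTri s a b c) w l'
              else some l')).isSome = true →
            acc.isSome = true ∧ (t a b = c → c < 8 → False) := by
          intro acc c hacc
          cases acc with
          | none => simp at hacc
          | some l' =>
            refine ⟨rfl, ?_⟩
            intro htc hc8
            subst htc
            have hf := feas_of_true ht hs a b ha hb hab hc8 (by rw [e]; exact hg0')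
            rw [Option.bind_some, hf, cond_true] at hacc
            exact ih _ _ _ (inv_addTri ht hs a b ha hb hab hc8 (by rw [e]; exact hg0')) hacc
        have keyW : ∀ (acc : Option (List ℕ)),
            (acc.bind (fun l' => bif Nat.blt w 5 then search fuel (setv s d 9) (w + 1) l'
              else some l')).isSome = true →
            acc.isSome = true ∧ (t a b = 8 → False) := by
          intro acc hacc
          cases acc with
          | none => simp at hacc
          | some l' =>
            refine ⟨rfl, ?_⟩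
            intro htc
            have hinv := inv_setW hs a b ha hb hab htc (by rw [e]; exact hg0')
            have hw := w_le hinv hu
            have hblt : Nat.blt w 5 = true := by
              rw [Nat.blt_eq]; omega
            rw [Option.bind_some, hblt, cond_true] at hacc
            rw [e] at hinv
            exact ih _ _ _ hinv hacc
        obtain ⟨h7, hW⟩ := keyW _ h
        obtain ⟨h6, n7⟩ := key _ _ h7
        obtain ⟨h5, n6⟩ := key _ _ h6
        obtain ⟨h4, n5⟩ := key _ _ h5
        obtain ⟨h3, n4⟩ := key _ _ h4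
        obtain ⟨h2, n3⟩ := key _ _ h3
        obtain ⟨h1, n2⟩ := key _ _ h2
        obtain ⟨h0, n1⟩ := key _ _ h1
        obtain ⟨_, n0⟩ := key _ _ h0
        have hle := ht.le a b ha hb hab
        have hcases : t a b = 0 ∨ t a b = 1 ∨ t a b = 2 ∨ t a b = 3 ∨ t a b = 4 ∨ t a b = 5 ∨
          t a b = 6 ∨ t a b = 7 ∨ t a b = 8 := by omega
        rcases hcases with h | h | h | h | h | h | h | h | h
        · exact n0 h (by norm_num)
        · exact n1 h (by norm_num)
        · exact n2 h (by norm_num)
        · exact n3 h (by norm_num)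
        · exact n4 h (by norm_num)
        · exact n5 h (by norm_num)
        · exact n6 h (by norm_num)
        · exact n7 h (by norm_num)
        · exact hW h

lemma init_table : ∀ a < 8, ∀ b < 8, getv init (8 * a + b) =
    if a = 0 then (if b = 0 then 0 else if b = 7 then 2 else b + 2)
    else if b = 0 then (if a = 1 then 8 else a)
    else if b = (if a = 7 then 1 else a + 1) then 1 else 0 := by
  decide +kernel

lemma init_clos : ∀ a < 8, ∀ b < 8, ∀ z < 8, getv init (8 * a + b) = z + 1 →
    getv init (8 * b + z) = a + 1 := by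
  decide +kernel

theorem no_good (t : ℕ → ℕ → ℕ) (ht : Good t) (hu : (unc t).card ≤ 5)
    (hz : ∀ i, 1 ≤ i → i ≤ 6 → t 0 i = i + 1) (hz7 : t 0 7 = 1) : False := by
  refine search_sound ht hu 60 init 0 cert ⟨?_, ?_, ⟨∅, rfl, by simp⟩⟩ search_ok
  · intro a b ha hb hne
    have hT := init_table a ha b hb
    rw [hT] at hne ⊢
    by_cases h0 : a = 0
    · subst h0
      simp only [if_true] at hne ⊢
      by_cases hb0 : b = 0
      · rw [if_pos hb0] at hne; exact absurd rfl hne
      · rw [if_neg hb0]
        by_cases hb7 : b = 7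
        · rw [if_pos hb7, hb7]; exact ⟨by norm_num, hz7⟩
        · rw [if_neg hb7, hz b (by omega) (by omega)]; exact ⟨by omega, by omega⟩
    · rw [if_neg h0] at hne ⊢
      by_cases hb0 : b = 0
      · subst hb0
        simp only [if_true] at hne ⊢
        refine ⟨h0, ?_⟩
        by_cases h1 : a = 1
        · subst h1
          have := rot2 ht 0 7 (by norm_num) (by norm_num) (by norm_num) (by rw [hz7]; norm_num)
          rw [hz7] at this
          rw [if_pos rfl]; exact this
        · rw [if_neg h1]
          have e := hz (a - 1) (by omega) (by omega)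
          have e2 : a - 1 + 1 = a := by omega
          rw [e2] at e
          have := rot2 ht 0 (a - 1) (by norm_num) (by omega) (by omega) (by rw [e]; exact ha)
          rw [e] at this
          exact this
      · rw [if_neg hb0] at hne ⊢
        by_cases hab : b = (if a = 7 then 1 else a + 1)
        · rw [if_pos hab]
          by_cases h7 : a = 7
          · subst h7
            simp only [if_true] at hab
            subst hab
            have := ht.rot 0 7 (by norm_num) (by norm_num) (by norm_num) (by rw [hz7]; norm_num)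
            rw [hz7] at this
            exact ⟨by norm_num, this⟩
          · rw [if_neg h7] at hab
            subst hab
            have e := hz a (by omega) (by omega)
            have := ht.rot 0 a (by norm_num) ha (by omega) (by rw [e]; exact hb)
            rw [e] at this
            exact ⟨by omega, this⟩
        · rw [if_neg hab] at hne; exact absurd rfl hne
  · intro a b z ha hb hz' h
    exact init_clos a ha b hb z hz' h

end Pool.Agent.SurfTri
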