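import Pool.Agent.SurfTri.Defs
import Pool.Agent.SurfTri.Sound

set_option autoImplicit false

namespace Pool.Agent.SurfTri

open Finset

/-- A partial rotation structure on eight vertices, as induced on a `K_8`. -/
structure Eight (tri : Fin 8 → Fin 8 → Fin 8 → Prop) : Prop where
  rot : ∀ a b c, tri a b c → tri b c a
  ne : ∀ a b c, tri a b c → a ≠ b
  uniq : ∀ a b c d, tri a b c → tri a b d → c = d
  /-- a set closed under turning around `a` has all the seven other vertices -/
  link : ∀ (a : Fin 8) (C : Finset (Fin 8)), C.Nonempty → a ∉ C →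
    (∀ x ∈ C, ∃ y ∈ C, tri a x y) → 7 ≤ C.card

open Classical in
/-- Encoding as a function on natural numbers, after relabelling by `e`. -/
noncomputable def tt (tri : Fin 8 → Fin 8 → Fin 8 → Prop) (e : Equiv.Perm (Fin 8)) (i j : ℕ) : ℕ :=
  if h : ∃ (hi : i < 8) (hj : j < 8) (c : Fin 8), tri (e ⟨i, hi⟩) (e ⟨j, hj⟩) (e c)
  then (h.choose_spec.choose_spec.choose : Fin 8).val else 8

lemma tt_le (tri : Fin 8 → Fin 8 → Fin 8 → Prop) (e : Equiv.Perm (Fin 8)) (i j : ℕ) :
    tt tri e i j ≤ 8 := by
  unfold tt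
  split_ifs with h
  · exact le_of_lt (Fin.isLt _)
  · exact le_refl _

lemma tt_spec {tri : Fin 8 → Fin 8 → Fin 8 → Prop} {e : Equiv.Perm (Fin 8)} {i j : ℕ}
    (h : tt tri e i j < 8) : ∃ (hi : i < 8) (hj : j < 8),
      tri (e ⟨i, hi⟩) (e ⟨j, hj⟩) (e ⟨tt tri e i j, h⟩) := by
  by_cases hex : ∃ (hi : i < 8) (hj : j < 8) (c : Fin 8), tri (e ⟨i, hi⟩) (e ⟨j, hj⟩) (e c)
  · have h1 : tt tri e i j = (hex.choose_spec.choose_spec.choose : Fin 8).val := by
      unfold tt; rw [dif_pos hex]
    have h2 := hex.choose_spec.choose_spec.choose_spec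
    refine ⟨hex.choose, hex.choose_spec.choose, ?_⟩
    have h3 : (⟨tt tri e i j, h⟩ : Fin 8) = hex.choose_spec.choose_spec.choose :=
      Fin.ext h1
    rw [h3]; exact h2
  · have : tt tri e i j = 8 := by unfold tt; rw [dif_neg hex]
    omega

lemma tt_eq {tri : Fin 8 → Fin 8 → Fin 8 → Prop} (hT : Eight tri) {e : Equiv.Perm (Fin 8)}
    {i j c : ℕ} (hi : i < 8) (hj : j < 8) (hc : c < 8)
    (h : tri (e ⟨i, hi⟩) (e ⟨j, hj⟩) (e ⟨c, hc⟩)) : tt tri e i j = c := by
  have hex : ∃ (hi : i < 8) (hj : j < 8) (c : Fin 8), tri (e ⟨i, hi⟩) (e ⟨j, hj⟩) (e c) :=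
    ⟨hi, hj, ⟨c, hc⟩, h⟩
  have h1 : tt tri e i j = (hex.choose_spec.choose_spec.choose : Fin 8).val := by
    unfold tt; rw [dif_pos hex]
  have h2 := hex.choose_spec.choose_spec.choose_spec
  have h3 := hT.uniq _ _ _ _ h2 h
  have h4 := e.injective h3
  rw [h1, h4]

lemma tt_good {tri : Fin 8 → Fin 8 → Fin 8 → Prop} (hT : Eight tri) (e : Equiv.Perm (Fin 8)) :
    Good (tt tri e) := by
  have ne1 : ∀ a b, a < 8 → b < 8 → a ≠ b → tt tri e a b ≠ a := by
    intro a b ha hb hab heq
    obtain ⟨hi, hj, h⟩ := tt_spec (tri := tri) (e := e) (i := a) (j := b) (by omega)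
    have h2 := hT.rot _ _ _ (hT.rot _ _ _ h)
    apply hT.ne _ _ _ h2
    congr 1
    exact Fin.ext heq
  have ne2 : ∀ a b, a < 8 → b < 8 → a ≠ b → tt tri e a b ≠ b := by
    intro a b ha hb hab heq
    obtain ⟨hi, hj, h⟩ := tt_spec (tri := tri) (e := e) (i := a) (j := b) (by omega)
    have h2 := hT.rot _ _ _ h
    apply hT.ne _ _ _ h2
    congr 1
    exact Fin.ext heq.symm
  refine ⟨?_, fun a b _ _ _ => tt_le tri e a b, ne1, ne2, ?_, ?_⟩
  · intro a
    unfold tt
    rw [dif_neg]
    rintro ⟨_, hj, _⟩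
    omega
  · intro a b ha hb hab h
    obtain ⟨hi, hj, h'⟩ := tt_spec h
    exact tt_eq hT hb h ha (hT.rot _ _ _ h')
  · intro a b ha hb hab j hj hcyc
    have w8 : ∀ k, (tt tri e a)^[k] 8 = 8 := by
      intro k
      induction k with
      | zero => rfl
      | succ k ih =>
        rw [Function.iterate_succ_apply]
        have : tt tri e a 8 = 8 := by
          unfold tt
          rw [dif_neg]
          rintro ⟨_, hj, _⟩
          omega
        rw [this]; exact ih
    have hlt : ∀ i ≤ j + 1, (tt tri e a)^[i] b < 8 := by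
      intro i hi
      have hle : (tt tri e a)^[i] b ≤ 8 := by
        cases i with
        | zero => exact le_of_lt hb
        | succ i => rw [Function.iterate_succ_apply']; exact tt_le _ _ _ _
      rcases Nat.lt_or_eq_of_le hle with h | h
      · exact h
      · exfalso
        have : (tt tri e a)^[(j + 1 - i) + i] b = b := by
          rw [Nat.sub_add_cancel hi]; exact hcyc
        rw [Function.iterate_add_apply, h, w8] at this
        omega
    have hC := hT.link (e ⟨a, ha⟩)
      ((Finset.range (j + 1)).attach.image (fun i => e ⟨(tt tri e a)^[i.1] b,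
        hlt i.1 (by have := Finset.mem_range.mp i.2; omega)⟩)) ?_ ?_ ?_
    · have hcard : ((Finset.range (j + 1)).attach.image (fun i => e ⟨(tt tri e a)^[i.1] b,
        hlt i.1 (by have := Finset.mem_range.mp i.2; omega)⟩)).card ≤ j + 1 := by
        refine le_trans Finset.card_image_le ?_
        simp
      omega
    · exact ⟨_, Finset.mem_image.mpr ⟨⟨0, by simp⟩, Finset.mem_attach _ _, rfl⟩⟩
    · intro hmem
      obtain ⟨⟨i, hi⟩, _, h⟩ := Finset.mem_image.mp hmem
      have hi' := Finset.mem_range.mp hi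
      have h1 := e.injective h
      have h2 : (tt tri e a)^[i] b = a := congrArg Fin.val h1
      cases i with
      | zero => exact hab h2.symm
      | succ i =>
        rw [Function.iterate_succ_apply'] at h2
        -- predecessor is not a
        have hp : ∀ k, k ≤ j + 1 → (tt tri e a)^[k] b ≠ a := by
          intro k hk
          induction k with
          | zero => exact fun h => hab h.symm
          | succ k ih =>
            rw [Function.iterate_succ_apply']
            have := ih (by omega)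
            exact ne1 a _ ha (hlt k (by omega)) (Ne.symm this)
        exact ne1 a _ ha (hlt i (by omega)) (Ne.symm (hp i (by omega))) h2
    · intro x hx
      obtain ⟨⟨i, hi⟩, _, rfl⟩ := Finset.mem_image.mp hx
      have hi' := Finset.mem_range.mp hi
      have hlt1 := hlt (i + 1) (by omega)
      rw [Function.iterate_succ_apply'] at hlt1
      obtain ⟨_, _, h⟩ := tt_spec hlt1
      by_cases hlast : i + 1 = j + 1
      · refine ⟨e ⟨(tt tri e a)^[0] b, hlt 0 (by omega)⟩,
          Finset.mem_image.mpr ⟨⟨0, by simp⟩, Finset.mem_attach _ _, rfl⟩, ?_⟩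
        have : (⟨tt tri e a ((tt tri e a)^[i] b), hlt1⟩ : Fin 8)
            = ⟨(tt tri e a)^[0] b, hlt 0 (by omega)⟩ := by
          apply Fin.ext
          show tt tri e a ((tt tri e a)^[i] b) = b
          have h5 := hcyc
          rw [← hlast, Function.iterate_succ_apply'] at h5
          exact h5
        rw [← this]; exact h
      · refine ⟨e ⟨(tt tri e a)^[i + 1] b, hlt (i + 1) (by omega)⟩,
          Finset.mem_image.mpr ⟨⟨i + 1, by rw [Finset.mem_range]; omega⟩,
            Finset.mem_attach _ _, rfl⟩, ?_⟩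
        have : (⟨tt tri e a ((tt tri e a)^[i] b), hlt1⟩ : Fin 8)
            = ⟨(tt tri e a)^[i + 1] b, hlt (i + 1) (by omega)⟩ := by
          apply Fin.ext
          show tt tri e a ((tt tri e a)^[i] b) = (tt tri e a)^[i + 1] b
          rw [Function.iterate_succ_apply']
        rw [← this]; exact h

open Classical in
/-- The uncovered darts. -/
noncomputable def unc8 (tri : Fin 8 → Fin 8 → Fin 8 → Prop) : Finset (Fin 8 × Fin 8) :=
  Finset.univ.filter (fun p => p.1 ≠ p.2 ∧ ¬ ∃ c, tri p.1 p.2 c)

lemma unc_le {tri : Fin 8 → Fin 8 → Fin 8 → Prop} (hT : Eight tri) (e : Equiv.Perm (Fin 8)) :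
    (unc (tt tri e)).card ≤ (unc8 tri).card := by
  classical
  apply Finset.card_le_card_of_injOn
    (fun d => if h : d / 8 < 8 ∧ d % 8 < 8 then (e ⟨d / 8, h.1⟩, e ⟨d % 8, h.2⟩)
      else (e ⟨0, by norm_num⟩, e ⟨0, by norm_num⟩))
  · intro d hd
    have hd' := Finset.mem_coe.mp hd
    unfold unc at hd'
    rw [Finset.mem_filter, Finset.mem_range] at hd'
    obtain ⟨h1, h2, h3⟩ := hd'
    have hh : d / 8 < 8 ∧ d % 8 < 8 := ⟨by omega, by omega⟩
    dsimp only
    rw [dif_pos hh]
    unfold unc8
    rw [Finset.mem_coe, Finset.mem_filter]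
    refine ⟨Finset.mem_univ _, ?_, ?_⟩
    · intro heq
      have := e.injective heq
      exact h2 (congrArg Fin.val this)
    · rintro ⟨c, hc⟩
      have hc' : tri (e ⟨d / 8, hh.1⟩) (e ⟨d % 8, hh.2⟩) (e ⟨(e.symm c).val, (e.symm c).isLt⟩) := by
        simpa using hc
      have := tt_eq hT hh.1 hh.2 (e.symm c).isLt hc'
      have := (e.symm c).isLt
      omega
  · intro d hd d' hd' heq
    have hd1 := Finset.mem_coe.mp hd
    have hd2 := Finset.mem_coe.mp hd'
    unfold unc at hd1 hd2
    rw [Finset.mem_filter, Finset.mem_range] at hd1 hd2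
    have hh : d / 8 < 8 ∧ d % 8 < 8 := ⟨by omega, by omega⟩
    have hh' : d' / 8 < 8 ∧ d' % 8 < 8 := ⟨by omega, by omega⟩
    simp only [dif_pos hh, dif_pos hh', Prod.mk.injEq] at heq
    have e1 := congrArg Fin.val (e.injective heq.1)
    have e2 := congrArg Fin.val (e.injective heq.2)
    simp only at e1 e2
    omega

/-- There is no rotation structure of `K_8` with at most five uncovered darts. -/
theorem no_eight (tri : Fin 8 → Fin 8 → Fin 8 → Prop) (hT : Eight tri)
    (hu : (unc8 tri).card ≤ 5) : False := by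
  classical
  -- a vertex without uncovered darts
  obtain ⟨v, hv⟩ : ∃ v : Fin 8, ∀ b, v ≠ b → ∃ c, tri v b c := by
    by_contra hcon
    push Not at hcon
    choose b hb1 hb2 using hcon
    have : (Finset.univ.image (fun v : Fin 8 => (v, b v))).card ≤ (unc8 tri).card := by
      apply Finset.card_le_card
      intro p hp
      obtain ⟨v, _, rfl⟩ := Finset.mem_image.mp hp
      unfold unc8
      rw [Finset.mem_filter]
      exact ⟨Finset.mem_univ _, hb1 v, fun ⟨c, hc⟩ => hb2 v c hc⟩
    rw [Finset.card_image_of_injective _ (fun x y h => (Prod.mk.inj h).1)] at this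
    simp at this
    omega
  set t := tt tri (Equiv.refl _) with ht
  have hG := tt_good hT (Equiv.refl _)
  rw [← ht] at hG
  have hlt : ∀ b, b < 8 → v.val ≠ b → t v.val b < 8 := by
    intro b hb hvb
    obtain ⟨c, hc⟩ := hv ⟨b, hb⟩ (fun h => hvb (congrArg Fin.val h))
    have := tt_eq hT (e := Equiv.refl _) v.isLt hb c.isLt hc
    rw [← ht] at this
    rw [this]; exact c.isLt
  -- choose a starting neighbour
  obtain ⟨x, hx8, hxv⟩ : ∃ x, x < 8 ∧ v.val ≠ x := by
    by_cases h0 : v.val = 0
    · exact ⟨1, by norm_num, by omega⟩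
    · exact ⟨0, by norm_num, h0⟩
  set y : ℕ → ℕ := fun i => (t v.val)^[i] x with hy
  have hy8 : ∀ i, y i < 8 ∧ v.val ≠ y i := by
    intro i
    induction i with
    | zero => exact ⟨hx8, hxv⟩
    | succ i ih =>
      have e : y (i + 1) = t v.val (y i) := by
        simp only [hy]; rw [Function.iterate_succ_apply']
      rw [e]
      exact ⟨hlt _ ih.1 ih.2, Ne.symm (hG.ne1 _ _ v.isLt ih.1 ih.2)⟩
  have hcyc : ∀ i k, 1 ≤ k → k ≤ 6 → y (i + k) ≠ y i := by
    intro i k hk1 hk6 h
    have := hG.link v.val (y i) v.isLt (hy8 i).1 (hy8 i).2 (k - 1) (by omega)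
    apply this
    rw [Nat.sub_add_cancel hk1]
    have e : (t v.val)^[k] (y i) = y (i + k) := by
      simp only [hy]
      rw [← Function.iterate_add_apply, Nat.add_comm]
    rw [e]; exact h
  have hinj : ∀ i j, i < 7 → j < 7 → y i = y j → i = j := by
    intro i j hi hj h
    rcases Nat.lt_trichotomy i j with hlt | heq | hgt
    · exfalso
      apply hcyc i (j - i) (by omega) (by omega)
      rw [show i + (j - i) = j by omega]; exact h.symm
    · exact heq
    · exfalso
      apply hcyc j (i - j) (by omega) (by omega)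
      rw [show j + (i - j) = i by omega]; exact h
  -- the relabelling
  have hσ : ∃ σ : Equiv.Perm (Fin 8), σ ⟨0, by norm_num⟩ = v ∧
      ∀ i (h : i < 7), σ ⟨i + 1, by omega⟩ = ⟨y i, (hy8 i).1⟩ := by
    let f : Fin 8 → Fin 8 := fun i => if i.val = 0 then v else ⟨y (i.val - 1), (hy8 _).1⟩
    have hf : Function.Injective f := by
      intro a b hab
      simp only [f] at hab
      by_cases ha : a.val = 0
      · by_cases hb : b.val = 0
        · exact Fin.ext (by omega)
        · rw [if_pos ha, if_neg hb] at hab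
          exact absurd (congrArg Fin.val hab) (hy8 _).2
      · by_cases hb : b.val = 0
        · rw [if_neg ha, if_pos hb] at hab
          exact absurd (congrArg Fin.val hab).symm (hy8 _).2
        · rw [if_neg ha, if_neg hb] at hab
          have := hinj (a.val - 1) (b.val - 1) (by omega) (by omega) (congrArg Fin.val hab)
          exact Fin.ext (by omega)
    refine ⟨Equiv.ofBijective f (Finite.injective_iff_bijective.mp hf), ?_, ?_⟩
    · simp [f]
    · intro i hi
      simp [f]
  obtain ⟨σ, hσ0, hσi⟩ := hσ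
  -- y 7 = y 0
  have hy7 : y 7 = y 0 := by
    have h1 : ∃ i, i < 7 ∧ y i = y 7 := by
      have hs := σ.surjective ⟨y 7, (hy8 7).1⟩
      obtain ⟨k, hk⟩ := hs
      by_cases hk0 : k.val = 0
      · exfalso
        have : k = ⟨0, by norm_num⟩ := Fin.ext hk0
        rw [this, hσ0] at hk
        exact (hy8 7).2 (congrArg Fin.val hk)
      · have : k = ⟨k.val - 1 + 1, by omega⟩ := Fin.ext (by simp only; omega)
        rw [this, hσi (k.val - 1) (by omega)] at hk
        exact ⟨k.val - 1, by omega, congrArg Fin.val hk⟩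
    obtain ⟨i, hi, h⟩ := h1
    by_cases h0 : i = 0
    · subst h0; exact h.symm
    · exfalso
      apply hcyc i (7 - i) (by omega) (by omega)
      rw [show i + (7 - i) = 7 by omega]; exact h.symm
  have hstep : ∀ i, tri v ⟨y i, (hy8 i).1⟩ ⟨y (i + 1), (hy8 (i + 1)).1⟩ := by
    intro i
    have h8 := hlt (y i) (hy8 i).1 (hy8 i).2
    have e : t v.val (y i) = y (i + 1) := by
      simp only [hy]; rw [Function.iterate_succ_apply']
    obtain ⟨h1, h2, h3⟩ := tt_spec (tri := tri) (e := Equiv.refl _) h8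
    simp only [Equiv.refl_apply] at h3
    convert h3 using 2
    exact e.symm
  apply no_good (tt tri σ) (tt_good hT σ) (le_trans (unc_le hT σ) hu)
  · intro i hi1 hi6
    refine tt_eq hT (by norm_num) (by omega) (by omega) ?_
    have e1 : σ ⟨i, by omega⟩ = ⟨y (i - 1), (hy8 _).1⟩ := by
      rw [← hσi (i - 1) (by omega)]
      congr 1
      exact Fin.ext (by simp only; omega)
    have e2 : σ ⟨i + 1, by omega⟩ = ⟨y i, (hy8 _).1⟩ := hσi i (by omega)
    rw [hσ0, e1, e2]
    have := hstep (i - 1)
    convert this using 2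
    congr 1
    omega
  · refine tt_eq hT (by norm_num) (by norm_num) (by norm_num) ?_
    have e1 : σ ⟨7, by omega⟩ = ⟨y 6, (hy8 _).1⟩ := hσi 6 (by omega)
    have e2 : σ ⟨1, by omega⟩ = ⟨y 0, (hy8 _).1⟩ := hσi 0 (by omega)
    rw [hσ0, e1, e2]
    have := hstep 6
    convert this using 2
    exact hy7.symm

end Pool.Agent.SurfTri
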