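import Mathlib

set_option autoImplicit false

namespace Pool.Agent.SurfTri

/-- A triangulation of a closed connected oriented surface with vertex set `V`, given by its set
of positively oriented facial triangles: `tri a b c` says that `a, b, c` are, in this cyclic order
(counterclockwise), the corners of a face. Distinct faces have distinct corner sets, every side of
a face lies on exactly one further face, the faces around a vertex form a single cycle, and the
1-skeleton is connected. -/
structure OrientedTriangulation (V : Type) where
  /-- `tri a b c`: the triangle `abc` is a positively oriented face. -/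
  tri : V → V → V → Prop
  /-- Being an oriented face is invariant under rotation of the corners. -/
  rot : ∀ a b c, tri a b c → tri b c a
  /-- The corners of a face are distinct (together with `rot`). -/
  ne : ∀ a b c, tri a b c → a ≠ b
  /-- Every directed edge `ab` has at most one face on its left. -/
  uniq : ∀ a b c d, tri a b c → tri a b d → c = d
  /-- If `ab` is a directed side of a face then so is `ba`. -/
  opp : ∀ a b c, tri a b c → ∃ d, tri b a d
  /-- The two faces at an edge are different triangles. -/
  simple : ∀ a b c, tri a b c → ¬ tri b a c
  /-- The faces around the vertex `a` form one cycle: from any neighbour `b` of `a` one reaches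
  any other neighbour `c` of `a` by turning around `a`. -/
  link : ∀ a b c, (∃ x, tri a b x) → (∃ x, tri a c x) →
    Relation.ReflTransGen (fun x y => tri a x y) b c
  /-- The 1-skeleton is connected. -/
  conn : ∀ a b, Relation.ReflTransGen (fun x y => ∃ z, tri x y z) a b
  /-- There is a vertex. -/
  nonempty : Nonempty V

/-- The 1-skeleton of a triangulated surface, as a simple graph. -/
def OrientedTriangulation.graph {V : Type} (T : OrientedTriangulation V) : SimpleGraph V where
  Adj a b := ∃ c, T.tri a b c
  symm := ⟨fun a b ⟨c, h⟩ => T.opp a b c h⟩
  loopless := ⟨fun a ⟨c, h⟩ => T.ne a a c h rfl⟩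

/-- The Euler characteristic `|V| - |E| + |F|`: each edge gives two ordered pairs of adjacent
vertices and each face three ordered triples. -/
noncomputable def OrientedTriangulation.eulerChar {V : Type} [Fintype V]
    (T : OrientedTriangulation V) : ℚ :=
  (Fintype.card V : ℚ) - (Nat.card {p : V × V // T.graph.Adj p.1 p.2} : ℚ) / 2
    + (Nat.card {p : V × V × V // T.tri p.1 p.2.1 p.2.2} : ℚ) / 3

/-- `T` triangulates the closed orientable surface of genus `h` (Euler genus `2 h`). -/
def OrientedTriangulation.HasGenus {V : Type} [Fintype V] (h : ℕ)
    (T : OrientedTriangulation V) : Prop := T.eulerChar = 2 - 2 * (h : ℚ)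

/-- `G` is embeddable in the closed orientable surface of genus `h`: some triangulation of that
surface contains a copy of `G` in its 1-skeleton. -/
def EmbedsIn (h : ℕ) {V : Type} (G : SimpleGraph V) : Prop :=
  ∃ (U : Type) (_ : Fintype U) (T : OrientedTriangulation U), T.HasGenus h ∧
    ∃ f : V → U, Function.Injective f ∧ ∀ a b, G.Adj a b → T.graph.Adj (f a) (f b)

/-- `G` is embeddable in the closed orientable surface of genus `h` but adding any missing edge
destroys this. -/
def EdgeMaximalIn (h : ℕ) {V : Type} (G : SimpleGraph V) : Prop :=
  EmbedsIn h G ∧ ∀ u v : V, u ≠ v → ¬ G.Adj u v → ¬ EmbedsIn h (G ⊔ SimpleGraph.edge u v)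

/-- Some triangulation of the closed orientable surface of genus `h` with the same vertex set as
`G` contains all edges of `G`. -/
def ExtendsToTriangulation (h : ℕ) {V : Type} [Fintype V] (G : SimpleGraph V) : Prop :=
  ∃ T : OrientedTriangulation V, T.HasGenus h ∧ G ≤ T.graph

end Pool.Agent.SurfTri
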