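import Mathlib

set_option autoImplicit false

namespace Pool.Agent.SurfTri

/-- Read the base 16 digit number `d`. -/
def getv (s d : ℕ) : ℕ := s / 16 ^ d % 16

/-- Write `v` into the base 16 digit number `d` (assumed to be zero). -/
def setv (s d v : ℕ) : ℕ := s + v * 16 ^ d

/-- Follow the rotation at `a` from `x`; is `b` reached within `k` steps? -/
def follow (s a b : ℕ) : ℕ → ℕ → Bool
  | 0, x => Nat.beq x b
  | k + 1, x => Nat.beq x b ||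
      (!(Nat.beq (getv s (8 * a + x)) 0) && !(Nat.beq (getv s (8 * a + x)) 9) &&
        follow s a b k (getv s (8 * a + x) - 1))

/-- May the triangle `(a, b, c)` be added to the state `s`? -/
def feas (s a b c : ℕ) : Bool :=
  !(Nat.beq c a) && !(Nat.beq c b) && Nat.beq (getv s (8 * b + c)) 0 &&
    Nat.beq (getv s (8 * c + a)) 0 &&
    !(follow s a b 5 c) && !(follow s b c 5 a) && !(follow s c a 5 b)

/-- Add the triangle `(a, b, c)` to the state `s`. -/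
def addTri (s a b c : ℕ) : ℕ :=
  setv (setv (setv s (8 * a + b) (c + 1)) (8 * b + c) (a + 1)) (8 * c + a) (b + 1)

/-- The exhaustive search, guided by a list of darts to branch on. -/
def search : ℕ → ℕ → ℕ → List ℕ → Option (List ℕ)
  | 0, _, _, _ => none
  | _ + 1, _, _, [] => none
  | fuel + 1, s, w, d :: l =>
    let a := d / 8
    let b := d % 8
    let step : Option (List ℕ) → ℕ → Option (List ℕ) := fun acc c =>
      acc.bind (fun l' => bif feas s a b c then search fuel (addTri s a b c) w l' else some l')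
    bif Nat.beq (getv s d) 0 && !(Nat.beq a b) && Nat.blt a 8 then
      (step (step (step (step (step (step (step (step (some l) 0) 1) 2) 3) 4) 5) 6) 7).bind
        (fun l' => bif Nat.blt w 5 then search fuel (setv s d 9) (w + 1) l' else some l')
    else none

/-- The certificate. -/
def cert : List ℕ :=
  [
    11, 47, 20, 49, 12, 13, 15, 30, 14, 22, 39, 52, 62, 42, 53, 25, 22, 39, 33, 14, 15, 22, 39,
    44, 42, 15, 23, 26, 25, 13, 15, 59, 14, 22, 30, 31, 43, 26, 23, 39, 33, 22, 30, 17, 14, 15,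
    30, 22, 31, 34, 39, 15, 34, 39, 33, 17, 59, 15, 23, 34, 14, 22, 22, 25, 14, 62, 26, 13, 14,
    15, 22, 34, 39, 42, 15, 43, 61, 25, 34, 39, 42, 23, 15, 14, 31, 38, 13, 59, 14, 26, 30, 43,
    53, 25, 15, 23, 26, 31, 50, 33, 30, 14, 15, 26, 43, 51, 61, 25, 22, 26, 39, 42, 17, 15, 43,
    61, 25, 17, 33, 15, 26, 51, 22, 39, 25, 22, 26, 14, 30, 15, 35, 26, 31, 33, 25, 33, 26, 42,
    15, 34, 35, 49, 12, 13, 15, 14, 22, 50, 23, 31, 42, 25, 15, 14, 23, 42, 22, 30, 50, 33, 25,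
    33, 13, 15, 59, 14, 22, 30, 15, 39, 44, 17, 33, 13, 59, 15, 14, 26, 15, 43, 61, 17, 25, 17,
    25, 26, 49, 20, 13, 14, 30, 53, 15, 22, 35, 50, 33, 21, 22, 25, 15, 50, 21, 23, 53, 34, 33,
    21, 53, 30, 14, 34, 52, 15, 51, 62, 25, 17, 15, 21, 31, 35, 43, 25, 17, 33, 15, 51, 62, 22,
    21, 25, 22, 21, 14, 30, 15, 35, 50, 33, 25, 33, 31, 21, 15, 50, 58, 13, 14, 30, 53, 15, 35,
    25, 15, 21, 39, 30, 14, 15, 51, 21, 22, 25, 17, 17, 33, 15, 51, 14, 30, 38, 58, 12, 13, 15,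
    30, 14, 21, 22, 33, 14, 15, 13, 15, 14, 21, 22, 30, 33, 17, 14, 15, 17, 15, 14, 22, 53, 25,
    21, 22, 13, 14, 15, 20, 12, 13, 15, 59, 60, 44, 15, 14, 21, 30, 13, 15, 60, 14, 21, 30, 15,
    21, 44, 60, 13, 15, 50, 14, 53, 21, 53, 15, 14, 51, 62, 17, 17, 25, 17, 25, 33, 58, 12, 13,
    15, 13, 15, 29, 38, 58, 12, 14, 13, 15, 22, 25, 33, 15, 13, 23, 25, 33, 41, 21, 22, 23, 26,
    13, 22, 26, 43, 14, 21, 31, 41, 17, 14, 22, 31, 51, 22, 52, 21, 39, 53, 17, 25, 43, 15, 23,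
    35, 21, 22, 25, 41, 14, 15, 26, 15, 31, 13, 14, 15, 21, 31, 35, 43, 20, 12, 15, 13, 25, 44,
    14, 21, 31, 35, 43, 33, 21, 25, 35, 60, 61, 25, 41, 44, 14, 26, 50, 43, 13, 14, 13, 26, 43,
    61, 14, 21, 31, 41, 17, 33, 60, 15, 23, 31, 41, 14, 31, 51, 15, 44, 26, 44, 23, 22, 43, 25,
    41, 15, 31, 35, 62, 17, 26, 33, 14, 21, 31, 35, 21, 43, 15, 13, 14, 23, 31, 41, 15, 13, 14,
    43, 51, 58, 12, 15, 13, 25, 44, 21, 25, 35, 25, 41, 13, 26, 43, 14, 21, 17, 33, 15, 31, 14,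
    31, 25, 41, 15, 31, 35, 43, 38, 47, 12, 14, 13, 22, 33, 42, 51, 22, 39, 52, 23, 35, 60, 26,
    42, 53, 23, 35, 13, 22, 26, 59, 14, 44, 51, 41, 17, 14, 22, 42, 51, 22, 34, 39, 42, 17, 22,
    14, 25, 44, 59, 15, 23, 41, 53, 23, 33, 26, 23, 35, 39, 34, 34, 35, 39, 42, 23, 35, 22, 39,
    26, 42, 58, 12, 14, 13, 22, 33, 21, 22, 53, 22, 52, 13, 22, 14, 21, 51, 41, 17, 14, 22, 17,
    21, 22, 41, 22, 14, 25, 35, 23, 15, 22, 20, 47, 12, 21, 13, 14, 35, 41, 44, 22, 23, 26, 50,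
    62, 22, 23, 13, 14, 21, 44, 51, 41, 53, 17, 33, 60, 14, 51, 35, 21, 51, 13, 14, 25, 26, 34,
    60, 25, 41, 47, 12, 35, 23, 39, 42, 61, 50, 26, 42, 60, 42, 50, 13, 26, 59, 14, 44, 17, 33,
    15, 43, 14, 42, 35, 23, 39, 61, 26, 34, 17, 25, 41, 25, 41, 58, 12, 21, 13, 14, 13, 14, 21,
    29, 49, 20, 15, 50, 17, 23, 41, 61, 14, 22, 13, 14, 21, 23, 42, 61, 34, 44, 41, 21, 23, 23,
    21, 34, 61, 13, 17, 30, 14, 21, 31, 35, 60, 26, 43, 25, 21, 31, 33, 17, 23, 25, 51, 14, 23,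
    22, 42, 50, 25, 33, 41, 17, 25, 34, 52, 14, 21, 30, 31, 26, 25, 41, 17, 21, 25, 43, 13, 21,
    42, 60, 44, 25, 44, 60, 61, 21, 13, 58, 15, 17, 41, 14, 26, 31, 25, 13, 14, 39, 21, 22, 30,
    41, 25, 31, 13, 17, 30, 14, 21, 31, 33, 17, 25, 33, 41, 17, 25, 41, 17, 21, 38, 58, 12, 15,
    13, 23, 33, 21, 22, 23, 26, 13, 15, 23, 39, 52, 21, 14, 22, 22, 31, 17, 30, 31, 17, 15, 23,
    21, 22, 21, 22, 13, 15, 14, 39, 14, 15, 21, 31, 20, 12, 15, 13, 44, 21, 31, 21, 60, 61, 26,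
    50, 13, 61, 15, 21, 23, 60, 17, 23, 21, 26, 26, 30, 30, 31, 15, 23, 21, 44, 61, 13, 17, 23,
    25, 14, 21, 31, 17, 23, 41, 33, 58, 12, 15, 13, 13, 15, 39, 47, 20, 49, 12, 22, 39, 14, 62,
    13, 15, 23, 60, 42, 23, 60, 13, 59, 15, 23, 34, 22, 23, 39, 17, 30, 31, 17, 22, 23, 35, 39,
    34, 26, 34, 39, 38, 17, 26, 50, 14, 30, 33, 41, 22, 23, 41, 14, 59, 50, 33, 34, 22, 26, 39,
    23, 30, 33, 42, 26, 34, 42, 50, 14, 30, 50, 26, 30, 49, 12, 42, 50, 13, 59, 49, 20, 17, 21,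
    41, 14, 22, 26, 22, 35, 44, 33, 34, 22, 21, 34, 23, 60, 33, 34, 41, 13, 53, 50, 42, 22, 30,
    62, 14, 30, 58, 17, 21, 41, 22, 21, 38, 58, 12, 21, 22, 13, 15, 39, 20, 12, 21, 13, 41, 13,
    15, 21
  ]

/-- Initial state: the rotation at `0` is `(1 2 3 4 5 6 7)`. -/
def init : ℕ := 621763770048848760612789839249077528243644032375286439998455241135152

theorem search_ok : (search 60 init 0 cert).isSome = true := by
  decide +kernel

end Pool.Agent.SurfTri
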