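import Pool.Agent.SurfTri.Defs

set_option autoImplicit false

namespace Pool.Agent.SurfTri

open Finset

/-- Directed sides of the triangle `a b c`. -/
def DD {U : Type} (a b c x y : U) : Prop := (x = a ∧ y = b) ∨ (x = b ∧ y = c) ∨ (x = c ∧ y = a)

/-- Triangles after inserting a new vertex `none` in the face `a b c`. -/
def stackTri {U : Type} (tri : U → U → U → Prop) (a b c : U) :
    Option U → Option U → Option U → Prop
  | some x, some y, some z => tri x y z ∧ ¬ DD a b c x y
  | none, some y, some z => DD a b c y z
  | some x, some y, none => DD a b c x y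
  | some x, none, some z => DD a b c z x
  | _, _, _ => False

section
variable {U : Type} (T : OrientedTriangulation U) {a b c : U} (habc : T.tri a b c)
include habc

lemma dd_tri {x y : U} (h : DD a b c x y) : ∃ z, T.tri x y z ∧ DD a b c y z ∧ DD a b c z x := by
  rcases h with ⟨rfl, rfl⟩ | ⟨rfl, rfl⟩ | ⟨rfl, rfl⟩
  · exact ⟨c, habc, Or.inr (Or.inl ⟨rfl, rfl⟩), Or.inr (Or.inr ⟨rfl, rfl⟩)⟩
  · exact ⟨a, T.rot _ _ _ habc, Or.inr (Or.inr ⟨rfl, rfl⟩), Or.inl ⟨rfl, rfl⟩⟩
  · exact ⟨b, T.rot _ _ _ (T.rot _ _ _ habc), Or.inl ⟨rfl, rfl⟩, Or.inr (Or.inl ⟨rfl, rfl⟩)⟩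

lemma abc_ne : a ≠ b ∧ b ≠ c ∧ c ≠ a :=
  ⟨T.ne _ _ _ habc, T.ne _ _ _ (T.rot _ _ _ habc), T.ne _ _ _ (T.rot _ _ _ (T.rot _ _ _ habc))⟩

lemma dd_ne {x y : U} (h : DD a b c x y) : x ≠ y := by
  obtain ⟨h1, h2, h3⟩ := abc_ne T habc
  rcases h with ⟨rfl, rfl⟩ | ⟨rfl, rfl⟩ | ⟨rfl, rfl⟩
  · exact h1
  · exact h2
  · exact h3

lemma dd_asymm {x y : U} (h : DD a b c x y) : ¬ DD a b c y x := by
  obtain ⟨h1, h2, h3⟩ := abc_ne T habc
  intro h'
  rcases h with ⟨rfl, rfl⟩ | ⟨rfl, rfl⟩ | ⟨rfl, rfl⟩ <;>
    rcases h' with ⟨e1, e2⟩ | ⟨e1, e2⟩ | ⟨e1, e2⟩ <;>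
    first
    | exact h1 e1 | exact h1 e2 | exact h1 e1.symm | exact h1 e2.symm
    | exact h2 e1 | exact h2 e2 | exact h2 e1.symm | exact h2 e2.symm
    | exact h3 e1 | exact h3 e2 | exact h3 e1.symm | exact h3 e2.symm

lemma dd_uniq {x y z : U} (h : DD a b c x y) (h' : DD a b c x z) : y = z := by
  obtain ⟨h1, h2, h3⟩ := abc_ne T habc
  rcases h with ⟨rfl, rfl⟩ | ⟨rfl, rfl⟩ | ⟨rfl, rfl⟩ <;>
    rcases h' with ⟨e1, e2⟩ | ⟨e1, e2⟩ | ⟨e1, e2⟩ <;> simp_all

lemma dd_uniq' {x y z : U} (h : DD a b c y x) (h' : DD a b c z x) : y = z := by
  obtain ⟨h1, h2, h3⟩ := abc_ne T habc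
  rcases h with ⟨rfl, rfl⟩ | ⟨rfl, rfl⟩ | ⟨rfl, rfl⟩ <;>
    rcases h' with ⟨e1, e2⟩ | ⟨e1, e2⟩ | ⟨e1, e2⟩ <;> simp_all

lemma dd_prev {x y : U} (h : DD a b c x y) : ∃ z, DD a b c z x ∧ DD a b c y z := by
  obtain ⟨z, _, h1, h2⟩ := dd_tri T habc h
  exact ⟨z, h2, h1⟩

/-- Old adjacency gives new adjacency. -/
lemma stack_adj_old {x y : U} (h : ∃ z, T.tri x y z) :
    ∃ w, stackTri T.tri a b c (some x) (some y) w := by
  by_cases hD : DD a b c x y
  · exact ⟨none, hD⟩
  · obtain ⟨z, hz⟩ := h
    exact ⟨some z, hz, hD⟩

lemma stack_adj_old_iff {x y : U} : (∃ w, stackTri T.tri a b c (some x) (some y) w) ↔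
    ∃ z, T.tri x y z := by
  constructor
  · rintro ⟨w, hw⟩
    cases w with
    | none =>
      obtain ⟨z, hz, _⟩ := dd_tri T habc (show DD a b c x y from hw)
      exact ⟨z, hz⟩
    | some w => exact ⟨w, hw.1⟩
  · exact stack_adj_old T habc

lemma stack_rot (x y z : Option U) (h : stackTri T.tri a b c x y z) :
    stackTri T.tri a b c y z x := by
  cases x with
  | none =>
    cases y with
    | none => exact h.elim
    | some y =>
      cases z with
      | none => exact h.elim
      | some z => exact h
  | some x =>
    cases y with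
    | none =>
      cases z with
      | none => exact h.elim
      | some z => exact h
    | some y =>
      cases z with
      | none => exact h
      | some z =>
        refine ⟨T.rot _ _ _ h.1, fun hD => ?_⟩
        obtain ⟨w, hw1, hw2, hw3⟩ := dd_tri T habc hD
        have := T.uniq _ _ _ _ hw1 (T.rot _ _ _ h.1)
        subst this
        exact h.2 hw3

lemma stack_uniq (x y z w : Option U) (h : stackTri T.tri a b c x y z)
    (h' : stackTri T.tri a b c x y w) : z = w := by
  cases x with
  | none =>
    cases y with
    | none => exact h.elim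
    | some y =>
      cases z with
      | none => exact h.elim
      | some z =>
        cases w with
        | none => exact h'.elim
        | some w => rw [dd_uniq T habc h h']
  | some x =>
    cases y with
    | none =>
      cases z with
      | none => exact h.elim
      | some z =>
        cases w with
        | none => exact h'.elim
        | some w => rw [dd_uniq' T habc h h']
    | some y =>
      cases z with
      | none =>
        cases w with
        | none => rfl
        | some w => exact absurd h h'.2
      | some z =>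
        cases w with
        | none => exact absurd h' h.2
        | some w => rw [T.uniq _ _ _ _ h.1 h'.1]

lemma stack_opp (x y z : Option U) (h : stackTri T.tri a b c x y z) :
    ∃ d, stackTri T.tri a b c y x d := by
  cases x with
  | none =>
    cases y with
    | none => exact h.elim
    | some y =>
      cases z with
      | none => exact h.elim
      | some z =>
        obtain ⟨w, hw, _⟩ := dd_prev T habc h
        exact ⟨some w, hw⟩
  | some x =>
    cases y with
    | none =>
      cases z with
      | none => exact h.elim
      | some z =>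
        obtain ⟨w, _, hw⟩ := dd_prev T habc h
        exact ⟨some w, hw⟩
    | some y =>
      have hold := (stack_adj_old_iff T habc).mp ⟨z, h⟩
      obtain ⟨w, hw⟩ := hold
      exact stack_adj_old T habc (T.opp _ _ _ hw)

lemma stack_simple (x y z : Option U) (h : stackTri T.tri a b c x y z) :
    ¬ stackTri T.tri a b c y x z := by
  intro h'
  cases x with
  | none =>
    cases y with
    | none => exact h.elim
    | some y =>
      cases z with
      | none => exact h.elim
      | some z => exact dd_asymm T habc h h'
  | some x =>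
    cases y with
    | none =>
      cases z with
      | none => exact h.elim
      | some z => exact dd_asymm T habc h h'
    | some y =>
      cases z with
      | none => exact dd_asymm T habc h h'
      | some z => exact T.simple _ _ _ h.1 h'.1

lemma stack_ne (x y z : Option U) (h : stackTri T.tri a b c x y z) : x ≠ y := by
  cases x with
  | none =>
    cases y with
    | none => exact h.elim
    | some y => exact fun h => absurd h (by simp)
  | some x =>
    cases y with
    | none => exact fun h => absurd h (by simp)
    | some y =>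
      intro hxy
      have hxy' : x = y := Option.some.inj hxy
      subst hxy'
      obtain ⟨w, hw⟩ := (stack_adj_old_iff T habc).mp ⟨z, h⟩
      exact T.ne _ _ _ hw rfl

lemma stack_link_old (v y z : U) (h : Relation.ReflTransGen (fun x y => T.tri v x y) y z) :
    Relation.ReflTransGen (fun x y => stackTri T.tri a b c (some v) x y) (some y) (some z) := by
  induction h with
  | refl => exact Relation.ReflTransGen.refl
  | @tail y' z' _ hyz ih =>
    refine ih.trans ?_
    by_cases hD : DD a b c v y'
    · obtain ⟨w, hw1, hw2, hw3⟩ := dd_tri T habc hD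
      have := T.uniq _ _ _ _ hw1 hyz
      subst this
      exact (Relation.ReflTransGen.single (r := fun x y => stackTri T.tri a b c (some v) x y)
        (show stackTri T.tri a b c (some v) (some y') none from hD)).tail
        (show stackTri T.tri a b c (some v) none (some w) from hw3)
    · exact Relation.ReflTransGen.single
        (show stackTri T.tri a b c (some v) (some y') (some z') from ⟨hyz, hD⟩)

lemma stack_link (v y z : Option U) (hy : ∃ x, stackTri T.tri a b c v y x)
    (hz : ∃ x, stackTri T.tri a b c v z x) :
    Relation.ReflTransGen (fun x y => stackTri T.tri a b c v x y) y z := by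
  cases v with
  | none =>
    -- link of the new vertex is the cycle a, b, c
    have hmem : ∀ y : Option U, (∃ x, stackTri T.tri a b c none y x) →
        y = some a ∨ y = some b ∨ y = some c := by
      rintro y ⟨x, hx⟩
      cases y with
      | none => exact hx.elim
      | some y =>
        cases x with
        | none => exact hx.elim
        | some x =>
          rcases (show DD a b c y x from hx) with ⟨rfl, _⟩ | ⟨rfl, _⟩ | ⟨rfl, _⟩
          · exact Or.inl rfl
          · exact Or.inr (Or.inl rfl)
          · exact Or.inr (Or.inr rfl)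
    have s1 : stackTri T.tri a b c none (some a) (some b) := Or.inl ⟨rfl, rfl⟩
    have s2 : stackTri T.tri a b c none (some b) (some c) := Or.inr (Or.inl ⟨rfl, rfl⟩)
    have s3 : stackTri T.tri a b c none (some c) (some a) := Or.inr (Or.inr ⟨rfl, rfl⟩)
    have r1 := Relation.ReflTransGen.single
      (r := fun x y => stackTri T.tri a b c none x y) s1
    have r2 := Relation.ReflTransGen.single
      (r := fun x y => stackTri T.tri a b c none x y) s2
    have r3 := Relation.ReflTransGen.single
      (r := fun x y => stackTri T.tri a b c none x y) s3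
    rcases hmem y hy with rfl | rfl | rfl <;> rcases hmem z hz with rfl | rfl | rfl
    · exact Relation.ReflTransGen.refl
    · exact r1
    · exact r1.trans r2
    · exact r2.trans r3
    · exact Relation.ReflTransGen.refl
    · exact r2
    · exact r3
    · exact r3.trans r1
    · exact Relation.ReflTransGen.refl
  | some v =>
    have key : ∀ y z : U, (∃ x, stackTri T.tri a b c (some v) (some y) x) →
        (∃ x, stackTri T.tri a b c (some v) (some z) x) →
        Relation.ReflTransGen (fun x y => stackTri T.tri a b c (some v) x y) (some y)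
          (some z) := by
      intro y z hy hz
      exact stack_link_old T habc v y z (T.link v y z ((stack_adj_old_iff T habc).mp hy)
        ((stack_adj_old_iff T habc).mp hz))
    -- from none
    have fromNone : (∃ x, stackTri T.tri a b c (some v) none x) → ∃ w : U,
        (∃ x, stackTri T.tri a b c (some v) (some w) x) ∧
        stackTri T.tri a b c (some v) none (some w) := by
      rintro ⟨x, hx⟩
      cases x with
      | none => exact hx.elim
      | some x =>
        refine ⟨x, ?_, hx⟩
        have h2 := stack_rot T habc _ _ _ (stack_rot T habc _ _ _ hx)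
        exact stack_opp T habc _ _ _ h2
    have toNone : (∃ x, stackTri T.tri a b c (some v) none x) → ∃ w : U,
        stackTri T.tri a b c (some v) (some w) none := by
      rintro ⟨x, hx⟩
      cases x with
      | none => exact hx.elim
      | some x =>
        obtain ⟨w, _, hw⟩ := dd_prev T habc (show DD a b c x v from hx)
        exact ⟨w, hw⟩
    cases y with
    | none =>
      obtain ⟨w, hw1, hw2⟩ := fromNone hy
      cases z with
      | none => exact Relation.ReflTransGen.refl
      | some z =>
        exact (Relation.ReflTransGen.single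
          (r := fun x y => stackTri T.tri a b c (some v) x y) hw2).trans (key w z hw1 hz)
    | some y =>
      cases z with
      | none =>
        obtain ⟨w, hw⟩ := toNone hz
        exact (key y w hy ⟨_, hw⟩).tail hw
      | some z => exact key y z hy hz

lemma stack_conn_old (y z : U) :
    Relation.ReflTransGen (fun x y => ∃ z, stackTri T.tri a b c x y z) (some y) (some z) := by
  have h := T.conn y z
  induction h with
  | refl => exact Relation.ReflTransGen.refl
  | tail _ hyz ih => exact ih.tail (stack_adj_old T habc hyz)

lemma stack_conn (y z : Option U) :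
    Relation.ReflTransGen (fun x y => ∃ z, stackTri T.tri a b c x y z) y z := by
  have s1 : ∃ w, stackTri T.tri a b c none (some a) w := ⟨some b, Or.inl ⟨rfl, rfl⟩⟩
  have s2 : ∃ w, stackTri T.tri a b c (some a) none w := ⟨some c, Or.inr (Or.inr ⟨rfl, rfl⟩)⟩
  cases y with
  | none =>
    cases z with
    | none => exact Relation.ReflTransGen.refl
    | some z =>
      exact (Relation.ReflTransGen.single
        (r := fun x y => ∃ z, stackTri T.tri a b c x y z) s1).trans (stack_conn_old T habc a z)
  | some y =>
    cases z with
    | none => exact (stack_conn_old T habc y a).tail s2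
    | some z => exact stack_conn_old T habc y z

end

/-- Inserting a new vertex of degree three in the face `a b c`. -/
def OrientedTriangulation.stack {U : Type} (T : OrientedTriangulation U) (a b c : U)
    (habc : T.tri a b c) : OrientedTriangulation (Option U) where
  tri := stackTri T.tri a b c
  rot := stack_rot T habc
  ne := stack_ne T habc
  uniq := stack_uniq T habc
  opp := stack_opp T habc
  simple := stack_simple T habc
  link := stack_link T habc
  conn := stack_conn T habc
  nonempty := ⟨none⟩

open Classical in
lemma card_flags_eq {U : Type} [Fintype U] (T : OrientedTriangulation U) :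
    Nat.card {p : U × U × U // T.tri p.1 p.2.1 p.2.2}
      = Nat.card {p : U × U // T.graph.Adj p.1 p.2} := by
  apply Nat.card_congr
  refine Equiv.ofBijective (fun p => ⟨(p.1.1, p.1.2.1), ⟨p.1.2.2, p.2⟩⟩) ⟨?_, ?_⟩
  · rintro ⟨⟨x, y, z⟩, h⟩ ⟨⟨x', y', z'⟩, h'⟩ heq
    simp only [Subtype.mk.injEq, Prod.mk.injEq] at heq
    obtain ⟨rfl, rfl⟩ := heq
    have := T.uniq _ _ _ _ h h'
    simp only at this
    subst this
    rfl
  · rintro ⟨⟨x, y⟩, ⟨z, h⟩⟩
    exact ⟨⟨(x, y, z), h⟩, rfl⟩

open Classical in
lemma card_darts_stack {U : Type} [Fintype U] (T : OrientedTriangulation U) (a b c : U)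
    (habc : T.tri a b c) :
    Nat.card {p : Option U × Option U // (T.stack a b c habc).graph.Adj p.1 p.2}
      = Nat.card {p : U × U // T.graph.Adj p.1 p.2} + 6 := by
  obtain ⟨h1, h2, h3⟩ := abc_ne T habc
  rw [Nat.card_eq_fintype_card, Fintype.card_subtype, Finset.card_filter,
    Nat.card_eq_fintype_card, Fintype.card_subtype, Finset.card_filter,
    Fintype.sum_prod_type, Fintype.sum_prod_type, Fintype.sum_option]
  have e0 : ∀ y : U, (T.stack a b c habc).graph.Adj none (some y) ↔ (y = a ∨ y = b ∨ y = c) := by
    intro y
    constructor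
    · rintro ⟨z, hz⟩
      cases z with
      | none => exact hz.elim
      | some z =>
        rcases (show DD a b c y z from hz) with ⟨rfl, _⟩ | ⟨rfl, _⟩ | ⟨rfl, _⟩
        · exact Or.inl rfl
        · exact Or.inr (Or.inl rfl)
        · exact Or.inr (Or.inr rfl)
    · rintro (rfl | rfl | rfl)
      · exact ⟨some b, Or.inl ⟨rfl, rfl⟩⟩
      · exact ⟨some c, Or.inr (Or.inl ⟨rfl, rfl⟩)⟩
      · exact ⟨some a, Or.inr (Or.inr ⟨rfl, rfl⟩)⟩
  have e1 : ∀ x : U, (T.stack a b c habc).graph.Adj (some x) none ↔ (x = a ∨ x = b ∨ x = c) := by
    intro x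
    rw [SimpleGraph.adj_comm]
    exact e0 x
  have e2 : ∀ x y : U, (T.stack a b c habc).graph.Adj (some x) (some y) ↔ T.graph.Adj x y := by
    intro x y
    exact stack_adj_old_iff T habc
  have e3 : ¬ (T.stack a b c habc).graph.Adj none none := SimpleGraph.irrefl _
  have e4 : (∑ y : U, if (y = a ∨ y = b ∨ y = c) then 1 else 0) = 3 := by
    rw [← Finset.card_filter]
    have : Finset.univ.filter (fun y => y = a ∨ y = b ∨ y = c) = {a, b, c} := by
      ext y; simp
    rw [this, Finset.card_eq_three]
    exact ⟨a, b, c, h1, fun h => h3 h.symm, h2, rfl⟩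
  have e5 : (∑ y : Option U, if (T.stack a b c habc).graph.Adj none y then 1 else 0) = 3 := by
    rw [Fintype.sum_option, if_neg e3, zero_add, ← e4]
    apply Finset.sum_congr rfl
    intro y _
    exact if_congr (e0 y) rfl rfl
  have e6 : ∀ x : U, (∑ y : Option U, if (T.stack a b c habc).graph.Adj (some x) y then 1 else 0)
      = (if (x = a ∨ x = b ∨ x = c) then 1 else 0) + ∑ y : U, if T.graph.Adj x y then 1 else 0 := by
    intro x
    rw [Fintype.sum_option]
    congr 1
    · exact if_congr (e1 x) rfl rfl
    · apply Finset.sum_congr rfl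
      intro y _
      exact if_congr (e2 x y) rfl rfl
  simp only [e5, e6]
  rw [Finset.sum_add_distrib, e4]
  ring

lemma stack_genus {U : Type} [Fintype U] {h : ℕ} (T : OrientedTriangulation U)
    (hT : T.HasGenus h) (a b c : U) (habc : T.tri a b c) : (T.stack a b c habc).HasGenus h := by
  unfold OrientedTriangulation.HasGenus OrientedTriangulation.eulerChar at *
  rw [card_flags_eq] at *
  rw [card_darts_stack, Fintype.card_option]
  push_cast
  linarith

end Pool.Agent.SurfTri
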